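import Mathlib

/-!
# Definitions: admissible sets and attainable gap exponents
-/

set_option autoImplicit false

namespace Pool.Agent.H457Adm

/-- `SumsOf A r`: the set of all sums of `r` distinct elements of `A`. -/
def SumsOf (A : Set ℕ) (r : ℕ) : Set ℕ :=
  {s | ∃ X : Finset ℕ, (X : Set ℕ) ⊆ A ∧ X.card = r ∧ ∑ x ∈ X, x = s}

/-- `A` is admissible: `S_r(A)` and `S_s(A)` are disjoint whenever `1 ≤ r < s`. -/
def Admissible (A : Set ℕ) : Prop :=
  ∀ r s : ℕ, 1 ≤ r → r < s → SumsOf A r ∩ SumsOf A s = ∅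

/-- `c` is attainable: there is an infinite admissible set of positive integers, enumerated
increasingly (`a n` is its element number `n + 1`), with all late gaps
`a_{n+1} - a_n` at most `n ^ c`. -/
def Attainable (c : ℝ) : Prop :=
  ∃ a : ℕ → ℕ, (∀ n, 1 ≤ a n) ∧ StrictMono a ∧ Admissible (Set.range a) ∧
    ∃ n₀ : ℕ, ∀ n : ℕ, n₀ ≤ n → (a (n + 1) : ℝ) - (a n : ℝ) ≤ ((n : ℝ) + 1) ^ c

end Pool.Agent.H457Adm
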