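import Mathlib
import Pool.Agent.H457Adm.Defs

set_option autoImplicit false
set_option linter.unusedSectionVars false

namespace Pool.Agent.H457Adm.Lower

open Finset Pool.Agent.H457Adm

/-! ### Equal sums have equal cardinality -/

lemma same_card {A : Set ℕ} (hA : Admissible A) (hpos : ∀ x ∈ A, 1 ≤ x) {X Y : Finset ℕ}
    (hX : (X : Set ℕ) ⊆ A) (hY : (Y : Set ℕ) ⊆ A) (h : ∑ x ∈ X, x = ∑ y ∈ Y, y) :
    X.card = Y.card := by
  have key : ∀ X Y : Finset ℕ, (X : Set ℕ) ⊆ A → (Y : Set ℕ) ⊆ A →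
      ∑ x ∈ X, x = ∑ y ∈ Y, y → ¬ X.card < Y.card := by
    intro X Y hX hY h hlt
    rcases Nat.eq_zero_or_pos X.card with h0 | h0
    · have hXe : X = ∅ := card_eq_zero.mp h0
      rw [hXe, sum_empty] at h
      have hYp : 0 < Y.card := by omega
      obtain ⟨y, hy⟩ := card_pos.mp hYp
      have h1 : y ≤ ∑ y ∈ Y, y := single_le_sum (f := fun y => y) (fun _ _ => Nat.zero_le _) hy
      have h2 := hpos y (hY hy)
      omega
    · have h1 := hA X.card Y.card h0 hlt
      have h2 : ∑ x ∈ X, x ∈ SumsOf A X.card ∩ SumsOf A Y.card :=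
        ⟨⟨X, hX, rfl, rfl⟩, ⟨Y, hY, rfl, h.symm⟩⟩
      rw [h1] at h2
      exact h2
  have h1 := key X Y hX hY h
  have h2 := key Y X hY hX h.symm
  omega

/-! ### Matchings -/

/-- all coordinates of distinct pairs are distinct -/
def PM (F : Finset (ℕ × ℕ)) : Prop :=
  ∀ p ∈ F, ∀ q ∈ F, p ≠ q → p.1 ≠ q.1 ∧ p.1 ≠ q.2 ∧ p.2 ≠ q.1 ∧ p.2 ≠ q.2

/-- endpoints -/
def ends (F : Finset (ℕ × ℕ)) : Finset ℕ := F.image Prod.fst ∪ F.image Prod.snd

lemma card_ends (F : Finset (ℕ × ℕ)) : (ends F).card ≤ 2 * F.card := by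
  unfold ends
  have h1 := card_union_le (F.image Prod.fst) (F.image Prod.snd)
  have h2 : (F.image Prod.fst).card ≤ F.card := card_image_le
  have h3 : (F.image Prod.snd).card ≤ F.card := card_image_le
  omega

lemma mem_ends {F : Finset (ℕ × ℕ)} {x : ℕ} : x ∈ ends F ↔ ∃ p ∈ F, p.1 = x ∨ p.2 = x := by
  unfold ends
  simp only [mem_union, mem_image]
  constructor
  · rintro (⟨p, hp, h⟩ | ⟨p, hp, h⟩)
    · exact ⟨p, hp, Or.inl h⟩
    · exact ⟨p, hp, Or.inr h⟩
  · rintro ⟨p, hp, h | h⟩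
    · exact Or.inl ⟨p, hp, h⟩
    · exact Or.inr ⟨p, hp, h⟩

lemma ends_mono {F G : Finset (ℕ × ℕ)} (h : F ⊆ G) : ends F ⊆ ends G := by
  intro x hx
  rw [mem_ends] at hx ⊢
  obtain ⟨p, hp, h'⟩ := hx
  exact ⟨p, h hp, h'⟩

lemma PM_mono {F G : Finset (ℕ × ℕ)} (h : F ⊆ G) (hG : PM G) : PM F :=
  fun p hp q hq hpq => hG p (h hp) q (h hq) hpq

/-- `Mat A ρ l`: there are at least `l` disjoint pairs in `A` with difference in
`[2^ρ, 2^(ρ+1))`. -/
def Mat (A : Set ℕ) (ρ l : ℕ) : Prop :=
  ∃ F : Finset (ℕ × ℕ), l ≤ F.card ∧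
    (∀ p ∈ F, p.1 ∈ A ∧ p.2 ∈ A ∧ p.1 + 2 ^ ρ ≤ p.2 ∧ p.2 < p.1 + 2 ^ (ρ + 1)) ∧ PM F

lemma Mat.mono {A : Set ℕ} {ρ l l' : ℕ} (h : Mat A ρ l) (hl : l' ≤ l) : Mat A ρ l' := by
  obtain ⟨F, h1, h2⟩ := h
  exact ⟨F, hl.trans h1, h2⟩

/-- few pairs of a matching touch a given set -/
lemma card_touch (F : Finset (ℕ × ℕ)) (hF : PM F) (X : Finset ℕ) :
    (F.filter (fun p => p.1 ∈ X ∨ p.2 ∈ X)).card ≤ X.card := by
  classical
  apply card_le_card_of_injOn (fun p => if p.1 ∈ X then p.1 else p.2)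
  · intro p hp
    have hp' := (mem_filter.mp (mem_coe.mp hp)).2
    simp only [mem_coe]
    split_ifs with h
    · exact h
    · rcases hp' with h1 | h1
      · exact absurd h1 h
      · exact h1
  · intro p hp q hq hpq
    have hp' := (mem_filter.mp (mem_coe.mp hp)).1
    have hq' := (mem_filter.mp (mem_coe.mp hq)).1
    by_contra hne
    obtain ⟨h1, h2, h3, h4⟩ := hF p hp' q hq' hne
    simp only at hpq
    split_ifs at hpq with ha hb hb
    · exact h1 hpq
    · exact h2 hpq
    · exact h3 hpq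
    · exact h4 hpq

/-- Greedy disjoint selection. -/
lemma greedy {ι : Type} [DecidableEq ι] (F : ι → Finset (ℕ × ℕ)) (μ T : ι → ℕ) (I : Finset ι) :
    (∀ i ∈ I, PM (F i)) → (∀ i ∈ I, μ i ≤ (F i).card) →
    (∀ i ∈ I, T i + 2 * ∑ j ∈ (I.erase i).filter (fun j => μ j ≤ μ i), T j ≤ μ i) →
    ∃ G : ι → Finset (ℕ × ℕ), (∀ i ∈ I, G i ⊆ F i ∧ (G i).card = T i) ∧
      ∀ i ∈ I, ∀ j ∈ I, i ≠ j → Disjoint (ends (G i)) (ends (G j)) := by
  classical
  induction I using Finset.induction_on_max_value μ with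
  | empty => intro _ _ _; exact ⟨fun _ => ∅, by simp, by simp⟩
  | insert a s ha hmax ih =>
    intro hPM hμ hT
    obtain ⟨G', hG1, hG2⟩ := ih (fun i hi => hPM i (mem_insert_of_mem hi))
      (fun i hi => hμ i (mem_insert_of_mem hi)) (by
        intro i hi
        refine le_trans ?_ (hT i (mem_insert_of_mem hi))
        apply Nat.add_le_add_left
        apply Nat.mul_le_mul_left
        apply sum_le_sum_of_subset
        intro j hj
        rw [mem_filter, mem_erase] at hj ⊢
        exact ⟨⟨hj.1.1, mem_insert_of_mem hj.1.2⟩, hj.2⟩)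
    -- the used points
    set X : Finset ℕ := s.biUnion (fun i => ends (G' i)) with hX
    have hXcard : X.card ≤ 2 * ∑ j ∈ s, T j := by
      calc X.card ≤ ∑ i ∈ s, (ends (G' i)).card := card_biUnion_le
        _ ≤ ∑ i ∈ s, 2 * T i := by
            apply sum_le_sum
            intro i hi
            rw [← (hG1 i hi).2]
            exact card_ends _
        _ = 2 * ∑ j ∈ s, T j := by rw [mul_sum]
    have hTa := hT a (mem_insert_self _ _)
    have hfil : ((insert a s).erase a).filter (fun j => μ j ≤ μ a) = s := by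
      rw [erase_insert ha]
      apply filter_true_of_mem
      exact hmax
    rw [hfil] at hTa
    have hFa := hμ a (mem_insert_self _ _)
    have hgood : T a ≤ ((F a).filter (fun p => ¬ (p.1 ∈ X ∨ p.2 ∈ X))).card := by
      have h1 := card_filter_add_card_filter_not (s := F a) (fun p => p.1 ∈ X ∨ p.2 ∈ X)
      have h2 := card_touch (F a) (hPM a (mem_insert_self _ _)) X
      omega
    obtain ⟨Ga, hGa1, hGa2⟩ := exists_subset_card_eq hgood
    have hdisj : ∀ i ∈ s, Disjoint (ends Ga) (ends (G' i)) := by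
      intro i hi
      rw [Finset.disjoint_left]
      intro x hx hx2
      rw [mem_ends] at hx
      obtain ⟨p, hp, hpx⟩ := hx
      have h3 := (mem_filter.mp (hGa1 hp)).2
      have h4 : x ∈ X := mem_biUnion.mpr ⟨i, hi, hx2⟩
      apply h3
      rcases hpx with rfl | rfl
      · exact Or.inl h4
      · exact Or.inr h4
    refine ⟨Function.update G' a Ga, ?_, ?_⟩
    · intro i hi
      rcases mem_insert.mp hi with rfl | hi'
      · rw [Function.update_self]
        exact ⟨hGa1.trans (filter_subset _ _), hGa2⟩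
      · have hne : i ≠ a := fun h => ha (h ▸ hi')
        rw [Function.update_of_ne hne]
        exact hG1 i hi'
    · intro i hi j hj hij
      rcases mem_insert.mp hi with rfl | hi'
      · rcases mem_insert.mp hj with rfl | hj'
        · exact absurd rfl hij
        · have hne : j ≠ i := fun h => hij h.symm
          rw [Function.update_self, Function.update_of_ne hne]
          exact hdisj j hj'
      · have hne : i ≠ a := fun h => ha (h ▸ hi')
        rcases mem_insert.mp hj with rfl | hj'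
        · rw [Function.update_self, Function.update_of_ne hne]
          exact (hdisj i hi').symm
        · have hne' : j ≠ a := fun h => ha (h ▸ hj')
          rw [Function.update_of_ne hne, Function.update_of_ne hne']
          exact hG2 i hi' j hj' hij

/-! ### Chains of sums -/

lemma chain (ρ : ℕ) (F : Finset (ℕ × ℕ)) :
    PM F → (∀ p ∈ F, p.1 + 2 ^ ρ ≤ p.2 ∧ p.2 < p.1 + 2 ^ (ρ + 1)) →
    ∃ σ : ℕ → ℕ, (∀ j < F.card, σ j + 2 ^ ρ ≤ σ (j + 1) ∧ σ (j + 1) < σ j + 2 ^ (ρ + 1)) ∧
      ∀ j ≤ F.card, ∃ Y : Finset ℕ, Y ⊆ ends F ∧ Y.card = F.card ∧ ∑ y ∈ Y, y = σ j := by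
  classical
  induction F using Finset.induction_on with
  | empty =>
    intro _ _
    refine ⟨fun _ => 0, by simp, ?_⟩
    intro j _
    exact ⟨∅, by simp, by simp, by simp⟩
  | insert p F hp ih =>
    intro hPM hd
    obtain ⟨σ, h1, h2⟩ := ih (PM_mono (subset_insert _ _) hPM)
      (fun q hq => hd q (mem_insert_of_mem hq))
    have hp1 : p.1 ∉ ends F ∧ p.2 ∉ ends F := by
      constructor
      · intro h
        obtain ⟨q, hq, hq'⟩ := mem_ends.mp h
        have hne : p ≠ q := fun h => hp (h ▸ hq)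
        obtain ⟨e1, e2, e3, e4⟩ := hPM p (mem_insert_self _ _) q (mem_insert_of_mem hq) hne
        rcases hq' with h | h
        · exact e1 h.symm
        · exact e2 h.symm
      · intro h
        obtain ⟨q, hq, hq'⟩ := mem_ends.mp h
        have hne : p ≠ q := fun h => hp (h ▸ hq)
        obtain ⟨e1, e2, e3, e4⟩ := hPM p (mem_insert_self _ _) q (mem_insert_of_mem hq) hne
        rcases hq' with h | h
        · exact e3 h.symm
        · exact e4 h.symm
    have hcard : (insert p F).card = F.card + 1 := card_insert_of_notMem hp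
    have hpd := hd p (mem_insert_self _ _)
    refine ⟨fun j => if j ≤ F.card then σ j + p.1 else σ F.card + p.2, ?_, ?_⟩
    · intro j hj
      rw [hcard] at hj
      rcases Nat.lt_or_ge j F.card with h | h
      · have e1 : j ≤ F.card := h.le
        have e2 : j + 1 ≤ F.card := h
        simp only [e1, e2, if_true]
        have := h1 j h
        omega
      · have e1 : j = F.card := by omega
        subst e1
        have e2 : ¬ (F.card + 1 ≤ F.card) := by omega
        simp only [le_refl, if_true, e2, if_false]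
        omega
    · intro j hj
      rw [hcard] at hj ⊢
      by_cases h : j ≤ F.card
      · obtain ⟨Y, hY1, hY2, hY3⟩ := h2 j h
        have hpY : p.1 ∉ Y := fun h => hp1.1 (hY1 h)
        refine ⟨insert p.1 Y, ?_, ?_, ?_⟩
        · intro x hx
          rcases mem_insert.mp hx with rfl | hx
          · exact mem_ends.mpr ⟨p, mem_insert_self _ _, Or.inl rfl⟩
          · exact ends_mono (subset_insert _ _) (hY1 hx)
        · rw [card_insert_of_notMem hpY, hY2]
        · rw [sum_insert hpY, hY3]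
          simp only [h, if_true]
          ring
      · obtain ⟨Y, hY1, hY2, hY3⟩ := h2 F.card le_rfl
        have hpY : p.2 ∉ Y := fun h => hp1.2 (hY1 h)
        refine ⟨insert p.2 Y, ?_, ?_, ?_⟩
        · intro x hx
          rcases mem_insert.mp hx with rfl | hx
          · exact mem_ends.mpr ⟨p, mem_insert_self _ _, Or.inr rfl⟩
          · exact ends_mono (subset_insert _ _) (hY1 hx)
        · rw [card_insert_of_notMem hpY, hY2]
        · rw [sum_insert hpY, hY3]
          simp only [h, if_false]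
          ring

/-- block version of the chain -/
lemma block_chain (k i ρ : ℕ) (hk : 3 ≤ k) (hρ : ρ ≤ i * k) (F : Finset (ℕ × ℕ)) (hPM : PM F)
    (hd : ∀ p ∈ F, p.1 + 2 ^ ρ ≤ p.2 ∧ p.2 < p.1 + 2 ^ (ρ + 1))
    (hcard : F.card = 2 ^ (k - 3) * 2 ^ (i * k - ρ)) :
    ∃ (σ₀ : ℕ) (δ : ℕ → ℕ),
      (∀ d < 2 ^ (k - 3), δ d + 2 ^ (i * k) ≤ δ (d + 1)) ∧
      (∀ d ≤ 2 ^ (k - 3), 4 * δ d ≤ 2 ^ ((i + 1) * k)) ∧
      ∀ d ≤ 2 ^ (k - 3), ∃ Y : Finset ℕ, Y ⊆ ends F ∧ Y.card = F.card ∧
        ∑ y ∈ Y, y = σ₀ + δ d := by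
  obtain ⟨σ, h1, h2⟩ := chain ρ F hPM hd
  obtain ⟨L, hL⟩ : ∃ L, L = 2 ^ (i * k - ρ) := ⟨_, rfl⟩
  rw [← hL] at hcard
  have hmono : ∀ j t, j + t ≤ F.card → σ j + t * 2 ^ ρ ≤ σ (j + t) ∧
      σ (j + t) ≤ σ j + t * 2 ^ (ρ + 1) := by
    intro j t
    induction t with
    | zero => intro _; simp
    | succ t ih =>
      intro h
      have h3 := ih (by omega)
      have h4 := h1 (j + t) (by omega)
      have e : j + t + 1 = j + (t + 1) := by ring
      rw [e] at h4
      constructor
      · have : (t + 1) * 2 ^ ρ = t * 2 ^ ρ + 2 ^ ρ := by ring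
        omega
      · have : (t + 1) * 2 ^ (ρ + 1) = t * 2 ^ (ρ + 1) + 2 ^ (ρ + 1) := by ring
        omega
  have hLρ : L * 2 ^ ρ = 2 ^ (i * k) := by
    rw [hL, ← pow_add]; congr 1; omega
  refine ⟨σ 0, fun d => σ (d * L) - σ 0, ?_, ?_, ?_⟩
  · intro d hd'
    have e1 : d * L + L ≤ F.card := by
      rw [hcard]
      calc d * L + L = (d + 1) * L := by ring
        _ ≤ 2 ^ (k - 3) * L := Nat.mul_le_mul_right _ hd'
    have h3 := (hmono (d * L) L e1).1
    have h4 := (hmono 0 (d * L) (by omega)).1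
    simp only [zero_add] at h4
    have e2 : (d + 1) * L = d * L + L := by ring
    simp only
    rw [e2]
    rw [hLρ] at h3
    have : 0 ≤ d * L * 2 ^ ρ := Nat.zero_le _
    omega
  · intro d hd'
    have e1 : 0 + d * L ≤ F.card := by
      rw [hcard, zero_add]
      exact Nat.mul_le_mul_right _ hd'
    have h3 := (hmono 0 (d * L) e1).2
    simp only [zero_add] at h3
    simp only
    have h4 : d * L * 2 ^ (ρ + 1) ≤ 2 ^ (k - 3) * 2 ^ (i * k) * 2 := by
      calc d * L * 2 ^ (ρ + 1) = d * (L * 2 ^ ρ) * 2 := by rw [pow_succ]; ring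
        _ = d * 2 ^ (i * k) * 2 := by rw [hLρ]
        _ ≤ 2 ^ (k - 3) * 2 ^ (i * k) * 2 := by
          apply Nat.mul_le_mul_right
          exact Nat.mul_le_mul_right _ hd'
    have h5 : 4 * (2 ^ (k - 3) * 2 ^ (i * k) * 2) = 2 ^ ((i + 1) * k) := by
      have : (i + 1) * k = (k - 3) + i * k + 3 := by
        have : (i + 1) * k = i * k + k := by ring
        omega
      rw [this, pow_add, pow_add]
      ring
    omega
  · intro d hd'
    have e1 : 0 + d * L ≤ F.card := by
      rw [hcard, zero_add]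
      exact Nat.mul_le_mul_right _ hd'
    obtain ⟨Y, hY1, hY2, hY3⟩ := h2 (d * L) (by omega)
    refine ⟨Y, hY1, hY2, ?_⟩
    rw [hY3]
    have h3 := (hmono 0 (d * L) e1).1
    simp only [zero_add] at h3
    have : 0 ≤ d * L * 2 ^ ρ := Nat.zero_le _
    simp only
    omega

/-- Product of the chains of several digits. -/
lemma product (k : ℕ) (hk : 3 ≤ k) (G : ℕ → Finset (ℕ × ℕ)) (ρ : ℕ → ℕ) (C : Finset ℕ) :
    (∀ i ∈ C, ρ i ≤ i * k ∧ PM (G i) ∧
      (∀ p ∈ G i, p.1 + 2 ^ ρ i ≤ p.2 ∧ p.2 < p.1 + 2 ^ (ρ i + 1)) ∧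
      (G i).card = 2 ^ (k - 3) * 2 ^ (i * k - ρ i)) →
    (∀ i ∈ C, ∀ j ∈ C, i ≠ j → Disjoint (ends (G i)) (ends (G j))) →
    ∃ (N β : ℕ) (H : Finset ℕ), 2 ^ ((k - 3) * C.card) ≤ H.card ∧
      (∀ m, (∀ j ∈ C, j < m) → ∀ h ∈ H, 2 * h < 2 ^ (m * k)) ∧
      ∀ h ∈ H, ∃ Y : Finset ℕ, Y ⊆ C.biUnion (fun i => ends (G i)) ∧ Y.card = N ∧
        ∑ y ∈ Y, y = β + h := by
  classical
  induction C using Finset.induction_on_max with
  | empty =>
    intro _ _
    refine ⟨0, 0, {0}, by simp, ?_, ?_⟩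
    · intro m _ h hh
      rw [mem_singleton] at hh
      subst hh
      simp
    · intro h hh
      rw [mem_singleton] at hh
      subst hh
      exact ⟨∅, by simp, by simp, by simp⟩
  | insert i C hmax ih =>
    intro hG hdisj
    have hiC : i ∉ C := fun h => lt_irrefl _ (hmax i h)
    obtain ⟨N, β, H, hH1, hH2, hH3⟩ := ih (fun j hj => hG j (mem_insert_of_mem hj))
      (fun j hj l hl => hdisj j (mem_insert_of_mem hj) l (mem_insert_of_mem hl))
    obtain ⟨g1, g2, g3, g4⟩ := hG i (mem_insert_self _ _)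
    obtain ⟨σ₀, δ, d1, d2, d3⟩ := block_chain k i (ρ i) hk g1 (G i) g2 g3 g4
    have hHi : ∀ h ∈ H, 2 * h < 2 ^ (i * k) := hH2 i hmax
    have hδmono : ∀ d t, d + t ≤ 2 ^ (k - 3) → δ d + t * 2 ^ (i * k) ≤ δ (d + t) := by
      intro d t
      induction t with
      | zero => intro _; simp
      | succ t iht =>
        intro h
        have h3 := iht (by omega)
        have h4 := d1 (d + t) (by omega)
        have e : d + t + 1 = d + (t + 1) := by ring
        rw [e] at h4
        have : (t + 1) * 2 ^ (i * k) = t * 2 ^ (i * k) + 2 ^ (i * k) := by ring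
        omega
    set H' : Finset ℕ := (H ×ˢ range (2 ^ (k - 3))).image (fun x => x.1 + δ x.2) with hH'
    have hinj : Set.InjOn (fun x : ℕ × ℕ => x.1 + δ x.2) (H ×ˢ range (2 ^ (k - 3)) : Finset _) := by
      have haux : ∀ h h' d d', h ∈ H → h' ∈ H → d < 2 ^ (k - 3) → d' < 2 ^ (k - 3) →
          h + δ d = h' + δ d' → ¬ d < d' := by
        intro h h' d d' hh hh' hd hd' heq hlt
        have h1 := hδmono d (d' - d) (by omega)
        have e : d + (d' - d) = d' := by omega
        rw [e] at h1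
        have h2 : 2 ^ (i * k) ≤ (d' - d) * 2 ^ (i * k) := Nat.le_mul_of_pos_left _ (by omega)
        have h3 := hHi h hh
        omega
      intro x hx y hy hxy
      simp only [coe_product, Set.mem_prod, mem_coe, mem_range] at hx hy
      simp only at hxy
      have h1 := haux x.1 y.1 x.2 y.2 hx.1 hy.1 hx.2 hy.2 hxy
      have h2 := haux y.1 x.1 y.2 x.2 hy.1 hx.1 hy.2 hx.2 hxy.symm
      have h3 : x.2 = y.2 := by omega
      rw [h3] at hxy
      have h4 : x.1 = y.1 := by omega
      exact Prod.ext h4 h3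
    refine ⟨N + (G i).card, β + σ₀, H', ?_, ?_, ?_⟩
    · rw [hH', card_image_of_injOn hinj, card_product, card_range, card_insert_of_notMem hiC,
        mul_add, mul_one, pow_add]
      exact Nat.mul_le_mul_right _ hH1
    · intro m hm h hh
      rw [hH', mem_image] at hh
      obtain ⟨x, hx, rfl⟩ := hh
      rw [mem_product, mem_range] at hx
      have h1 := hHi x.1 hx.1
      have h2 := d2 x.2 hx.2.le
      have h3 : i + 1 ≤ m := hm i (mem_insert_self _ _)
      have h4 : 2 ^ ((i + 1) * k) ≤ 2 ^ (m * k) :=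
        Nat.pow_le_pow_right (by norm_num) (Nat.mul_le_mul_right _ h3)
      have h5 : 2 * 2 ^ (i * k) ≤ 2 ^ ((i + 1) * k) := by
        have e : (i + 1) * k = i * k + k := by ring
        rw [e, pow_add, mul_comm]
        apply Nat.mul_le_mul_left
        calc 2 = 2 ^ 1 := by norm_num
          _ ≤ 2 ^ k := Nat.pow_le_pow_right (by norm_num) (by omega)
      omega
    · intro h hh
      rw [hH', mem_image] at hh
      obtain ⟨x, hx, rfl⟩ := hh
      rw [mem_product, mem_range] at hx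
      obtain ⟨Y1, a1, a2, a3⟩ := hH3 x.1 hx.1
      obtain ⟨Y2, b1, b2, b3⟩ := d3 x.2 hx.2.le
      have hdis : Disjoint Y1 Y2 := by
        apply Disjoint.mono a1 b1
        rw [disjoint_biUnion_left]
        intro j hj
        apply hdisj j (mem_insert_of_mem hj) i (mem_insert_self _ _)
        intro hji
        exact hiC (hji ▸ hj)
      refine ⟨Y1 ∪ Y2, ?_, ?_, ?_⟩
      · rw [biUnion_insert]
        apply union_subset
        · exact a1.trans subset_union_right
        · exact b1.trans subset_union_left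
      · rw [card_union_of_disjoint hdis, a2, b2]
      · rw [sum_union hdis, a3, b3]
        ring

end Pool.Agent.H457Adm.Lower
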