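import Mathlib
import Pool.Agent.H457Adm.Lower1

set_option autoImplicit false
set_option linter.unusedSectionVars false

namespace Pool.Agent.H457Adm.Lower

open Finset Pool.Agent.H457Adm

/-- weights with `∑ 1 / wt i ≤ 1` -/
def wt (i : ℕ) : ℕ := (i + 1) * (i + 2)

/-- digit `i` (scales `i k, ..., (i+1) k`) is covered -/
def Covered (A : Set ℕ) (k i : ℕ) : Prop :=
  ∃ ρ, ρ ≤ i * k ∧ Mat A ρ (wt i * 2 ^ ((i + 1) * k - ρ))

lemma wt_pos (i : ℕ) : 0 < wt i := by unfold wt; positivity

lemma sum_inv (n : ℕ) : ∑ i ∈ range n, (1 : ℚ) / (wt i : ℚ) = 1 - 1 / ((n : ℚ) + 1) := by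
  induction n with
  | zero => simp
  | succ n ih =>
    rw [sum_range_succ, ih]
    unfold wt
    push_cast
    field_simp
    ring

lemma sum_T (S : Finset ℕ) (T : ℕ → ℕ) (U : ℕ) (h : ∀ j ∈ S, 8 * wt j * T j ≤ U) :
    8 * ∑ j ∈ S, T j ≤ U := by
  obtain ⟨n, hn⟩ := S.exists_nat_subset_range
  have h1 : ∀ j ∈ S, (8 : ℚ) * T j ≤ U * (1 / (wt j : ℚ)) := by
    intro j hj
    have hw : (0 : ℚ) < wt j := by exact_mod_cast wt_pos j
    rw [mul_one_div, le_div_iff₀ hw]
    have : 8 * T j * wt j ≤ U := by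
      calc 8 * T j * wt j = 8 * wt j * T j := by ring
        _ ≤ U := h j hj
    exact_mod_cast this
  have h2 : (8 : ℚ) * ∑ j ∈ S, (T j : ℚ) ≤ U := by
    rw [mul_sum]
    calc ∑ j ∈ S, (8 : ℚ) * T j ≤ ∑ j ∈ S, U * (1 / (wt j : ℚ)) := sum_le_sum h1
      _ = U * ∑ j ∈ S, (1 / (wt j : ℚ)) := by rw [mul_sum]
      _ ≤ U * ∑ j ∈ range n, (1 / (wt j : ℚ)) := by
          apply mul_le_mul_of_nonneg_left _ (by positivity)
          apply sum_le_sum_of_subset_of_nonneg hn
          intro i _ _
          positivity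
      _ ≤ U * 1 := by
          apply mul_le_mul_of_nonneg_left _ (by positivity)
          rw [sum_inv]
          have : (0 : ℚ) ≤ 1 / ((n : ℚ) + 1) := by positivity
          linarith
      _ = U := mul_one _
  exact_mod_cast h2

theorem product_bound {A : Set ℕ} (hA : Admissible A) (hpos : ∀ x ∈ A, 1 ≤ x) (k : ℕ)
    (hk : 3 ≤ k) (I : ℕ) (C : Finset ℕ) (hCI : ∀ i ∈ C, i < I) (hC : ∀ i ∈ C, Covered A k i)
    (B : Finset ℕ) (hB : (B : Set ℕ) ⊆ A) (hBs : ∑ x ∈ B, x ≤ 2 ^ (I * k)) :
    B.card * 2 ^ ((k - 3) * C.card) ≤ 8 * 2 ^ (I * k) := by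
  classical
  have hex : ∀ i, ∃ (ρ : ℕ) (F : Finset (ℕ × ℕ)), i ∈ C → (ρ ≤ i * k ∧
      wt i * 2 ^ ((i + 1) * k - ρ) ≤ F.card ∧
      (∀ p ∈ F, p.1 ∈ A ∧ p.2 ∈ A ∧ p.1 + 2 ^ ρ ≤ p.2 ∧ p.2 < p.1 + 2 ^ (ρ + 1)) ∧ PM F) := by
    intro i
    by_cases hi : i ∈ C
    · obtain ⟨ρ, h1, F, h2, h3, h4⟩ := hC i hi
      exact ⟨ρ, F, fun _ => ⟨h1, h2, h3, h4⟩⟩
    · exact ⟨0, ∅, fun h => absurd h hi⟩
  choose ρ F hF using hex
  set F' : Option ℕ → Finset (ℕ × ℕ) := fun o => match o with
    | none => B.image (fun x => (x, x))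
    | some i => F i with hF'
  set μ : Option ℕ → ℕ := fun o => match o with
    | none => B.card
    | some i => wt i * 2 ^ ((i + 1) * k - ρ i) with hμ
  set T : Option ℕ → ℕ := fun o => match o with
    | none => B.card / 4
    | some i => 2 ^ (k - 3) * 2 ^ (i * k - ρ i) with hT
  have hμT : ∀ i ∈ C, 8 * wt i * T (some i) = μ (some i) := by
    intro i hi
    simp only [hT, hμ]
    have h1 := (hF i hi).1
    have e : (i + 1) * k - ρ i = 3 + (k - 3) + (i * k - ρ i) := by
      have : (i + 1) * k = i * k + k := by ring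
      omega
    rw [e, pow_add, pow_add]
    ring
  obtain ⟨G, hG1, hG2⟩ := greedy F' μ T (insertNone C) (by
      intro o ho
      match o with
      | none =>
        intro p hp q hq hpq
        simp only [hF', mem_image] at hp hq
        obtain ⟨x, -, rfl⟩ := hp
        obtain ⟨y, -, rfl⟩ := hq
        have : x ≠ y := fun h => hpq (by rw [h])
        exact ⟨this, this, this, this⟩
      | some i =>
        exact (hF i (some_mem_insertNone.mp ho)).2.2.2) (by
      intro o ho
      match o with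
      | none =>
        simp only [hF', hμ]
        rw [card_image_of_injective]
        intro x y hxy
        exact (Prod.ext_iff.mp hxy).1
      | some i =>
        exact (hF i (some_mem_insertNone.mp ho)).2.1) (by
      intro o ho
      have h1 : T o + 2 * ∑ j ∈ ((insertNone C).erase o).filter (fun j => μ j ≤ μ o), T j
          ≤ 2 * ∑ j ∈ (insertNone C).filter (fun j => μ j ≤ μ o), T j := by
        have h2 : o ∈ (insertNone C).filter (fun j => μ j ≤ μ o) :=
          mem_filter.mpr ⟨ho, le_rfl⟩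
        have h3 : ((insertNone C).erase o).filter (fun j => μ j ≤ μ o)
            = ((insertNone C).filter (fun j => μ j ≤ μ o)).erase o := by
          ext j; simp only [mem_filter, mem_erase]; tauto
        rw [h3, ← add_sum_erase _ _ h2]
        omega
      refine h1.trans ?_
      rw [sum_filter, sum_insertNone]
      have h4 : ∑ j ∈ C, (if μ (some j) ≤ μ o then T (some j) else 0)
          = ∑ j ∈ C.filter (fun j => μ (some j) ≤ μ o), T (some j) := by rw [sum_filter]
      rw [h4]
      have h5 : 8 * ∑ j ∈ C.filter (fun j => μ (some j) ≤ μ o), T (some j) ≤ μ o := by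
        apply sum_T
        intro j hj
        rw [mem_filter] at hj
        rw [hμT j hj.1]
        exact hj.2
      have h6 : 4 * (if μ none ≤ μ o then T none else 0) ≤ μ o := by
        split_ifs with h
        · simp only [hT]
          have : μ none = B.card := rfl
          omega
        · omega
      omega)
  -- the zero-count sums
  obtain ⟨N, β, H, hH1, hH2, hH3⟩ := product k hk (fun i => G (some i)) ρ C (by
      intro i hi
      obtain ⟨f1, f2, f3, f4⟩ := hF i hi
      obtain ⟨g1, g2⟩ := hG1 (some i) (some_mem_insertNone.mpr hi)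
      refine ⟨f1, PM_mono g1 f4, ?_, g2⟩
      intro p hp
      exact (f3 p (g1 hp)).2.2) (by
      intro i hi j hj hij
      exact hG2 (some i) (some_mem_insertNone.mpr hi) (some j) (some_mem_insertNone.mpr hj)
        (fun h => hij (Option.some_injective _ h)))
  have hHlt : ∀ h ∈ H, 2 * h < 2 ^ (I * k) := hH2 I hCI
  -- the elements used for the count
  obtain ⟨gn1, gn2⟩ := hG1 none (none_mem_insertNone)
  set B' : Finset ℕ := (G none).image Prod.fst with hB'
  have hB'B : B' ⊆ B := by
    intro x hx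
    rw [hB', mem_image] at hx
    obtain ⟨p, hp, rfl⟩ := hx
    have := gn1 hp
    simp only [hF', mem_image] at this
    obtain ⟨y, hy, rfl⟩ := this
    exact hy
  have hB'card : B'.card = B.card / 4 := by
    rw [hB', card_image_of_injOn]
    · exact gn2
    · intro p hp q hq hpq
      have h1 := gn1 (mem_coe.mp hp)
      have h2 := gn1 (mem_coe.mp hq)
      simp only [hF', mem_image] at h1 h2
      obtain ⟨x, -, rfl⟩ := h1
      obtain ⟨y, -, rfl⟩ := h2
      simp only at hpq
      rw [hpq]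
  have hB'ends : B' ⊆ ends (G none) := by
    unfold ends
    exact subset_union_left
  have hsub : ∀ D, ∃ S : Finset ℕ, D ≤ B'.card → (S ⊆ B' ∧ S.card = D) := by
    intro D
    by_cases h : D ≤ B'.card
    · obtain ⟨S, h1, h2⟩ := exists_subset_card_eq h
      exact ⟨S, fun _ => ⟨h1, h2⟩⟩
    · exact ⟨∅, fun h' => absurd h' h⟩
  choose S hS using hsub
  have hYex : ∀ h, ∃ Y : Finset ℕ, h ∈ H → (Y ⊆ C.biUnion (fun i => ends (G (some i))) ∧
      Y.card = N ∧ ∑ y ∈ Y, y = β + h) := by
    intro h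
    by_cases hh : h ∈ H
    · obtain ⟨Y, hY⟩ := hH3 h hh
      exact ⟨Y, fun _ => hY⟩
    · exact ⟨∅, fun h' => absurd h' hh⟩
  choose Y hY using hYex
  have hendsA : ∀ i ∈ C, ∀ x ∈ ends (G (some i)), x ∈ A := by
    intro i hi x hx
    obtain ⟨p, hp, hpx⟩ := mem_ends.mp hx
    have h1 := (hG1 (some i) (some_mem_insertNone.mpr hi)).1 hp
    have h2 := (hF i hi).2.2.1 p h1
    rcases hpx with rfl | rfl
    · exact h2.1
    · exact h2.2.1
  have hdisYB : ∀ h ∈ H, ∀ D ≤ B'.card, Disjoint (Y h) (S D) := by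
    intro h hh D hD
    apply Disjoint.mono (hY h hh).1 (((hS D hD).1).trans hB'ends)
    rw [disjoint_biUnion_left]
    intro i hi
    exact hG2 (some i) (some_mem_insertNone.mpr hi) none none_mem_insertNone (by simp)
  have hYA : ∀ h ∈ H, ∀ D ≤ B'.card, ((Y h ∪ S D : Finset ℕ) : Set ℕ) ⊆ A := by
    intro h hh D hD x hx
    rw [mem_coe, mem_union] at hx
    rcases hx with hx | hx
    · have h1 := (hY h hh).1 hx
      rw [mem_biUnion] at h1
      obtain ⟨i, hi, hxi⟩ := h1
      exact hendsA i hi x hxi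
    · exact hB (hB'B ((hS D hD).1 hx))
  have hcount : (B'.card + 1) * H.card ≤ 2 * 2 ^ (I * k) := by
    have h1 : ((range (B'.card + 1)) ×ˢ H).card = (B'.card + 1) * H.card := by
      rw [card_product, card_range]
    have h2 : (Ico β (β + 2 * 2 ^ (I * k))).card = 2 * 2 ^ (I * k) := by
      rw [Nat.card_Ico]; omega
    rw [← h1, ← h2]
    apply card_le_card_of_injOn (fun x => β + x.2 + ∑ y ∈ S x.1, y)
    · intro x hx
      rw [mem_coe, mem_product, mem_range] at hx
      have h3 := hHlt x.2 hx.2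
      have h4 : ∑ y ∈ S x.1, y ≤ ∑ y ∈ B, y :=
        sum_le_sum_of_subset (((hS x.1 (by omega)).1).trans hB'B)
      simp only [coe_Ico, Set.mem_Ico]
      omega
    · intro x hx y hy hxy
      rw [mem_coe, mem_product, mem_range] at hx hy
      simp only at hxy
      have hx1 : x.1 ≤ B'.card := by omega
      have hy1 : y.1 ≤ B'.card := by omega
      have e1 : ∑ z ∈ Y x.2 ∪ S x.1, z = β + x.2 + ∑ y ∈ S x.1, y := by
        rw [sum_union (hdisYB x.2 hx.2 x.1 hx1), (hY x.2 hx.2).2.2]
      have e2 : ∑ z ∈ Y y.2 ∪ S y.1, z = β + y.2 + ∑ z ∈ S y.1, z := by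
        rw [sum_union (hdisYB y.2 hy.2 y.1 hy1), (hY y.2 hy.2).2.2]
      have h5 := same_card hA hpos (hYA x.2 hx.2 x.1 hx1) (hYA y.2 hy.2 y.1 hy1)
        (by rw [e1, e2]; exact hxy)
      rw [card_union_of_disjoint (hdisYB x.2 hx.2 x.1 hx1),
        card_union_of_disjoint (hdisYB y.2 hy.2 y.1 hy1), (hY x.2 hx.2).2.1,
        (hY y.2 hy.2).2.1, (hS x.1 hx1).2, (hS y.1 hy1).2] at h5
      have h6 : x.1 = y.1 := by omega
      rw [h6] at hxy
      have h7 : x.2 = y.2 := by omega
      exact Prod.ext h6 h7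
  calc B.card * 2 ^ ((k - 3) * C.card) ≤ (4 * (B'.card + 1)) * H.card := by
        apply Nat.mul_le_mul _ hH1
        omega
    _ = 4 * ((B'.card + 1) * H.card) := by ring
    _ ≤ 4 * (2 * 2 ^ (I * k)) := Nat.mul_le_mul_left _ hcount
    _ = 8 * 2 ^ (I * k) := by ring

/-! ### Vertex covers -/

lemma vertex_cover {A : Set ℕ} {ρ l : ℕ} (h : ¬ Mat A ρ l) : ∃ X : Finset ℕ, X.card ≤ 2 * l ∧
    ∀ x ∈ A, ∀ y ∈ A, x ∉ X → y ∉ X → x + 2 ^ ρ ≤ y → y < x + 2 ^ (ρ + 1) → False := by
  classical
  let P : ℕ → Prop := fun m => ∃ F : Finset (ℕ × ℕ), F.card = m ∧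
    (∀ p ∈ F, p.1 ∈ A ∧ p.2 ∈ A ∧ p.1 + 2 ^ ρ ≤ p.2 ∧ p.2 < p.1 + 2 ^ (ρ + 1)) ∧ PM F
  have hP0 : P 0 := ⟨∅, by simp, by simp, by intro p hp; simp at hp⟩
  have hlt : ∀ m, P m → m < l := by
    intro m ⟨F, h1, h2, h3⟩
    by_contra hcon
    push Not at hcon
    exact h ⟨F, by omega, h2, h3⟩
  have hg := Nat.findGreatest_spec (P := P) (Nat.zero_le l) hP0
  obtain ⟨F, h1, h2, h3⟩ := hg
  have hlt' := hlt _ (Nat.findGreatest_spec (P := P) (Nat.zero_le l) hP0)
  refine ⟨ends F, ?_, ?_⟩
  · have := card_ends F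
    omega
  · intro x hx y hy hxF hyF hxy1 hxy2
    have hnot : (x, y) ∉ F := by
      intro hmem
      exact hxF (mem_ends.mpr ⟨_, hmem, Or.inl rfl⟩)
    have hP' : P (Nat.findGreatest P l + 1) := by
      refine ⟨insert (x, y) F, ?_, ?_, ?_⟩
      · rw [card_insert_of_notMem hnot, h1]
      · intro p hp
        rcases mem_insert.mp hp with rfl | hp
        · exact ⟨hx, hy, hxy1, hxy2⟩
        · exact h2 p hp
      · intro p hp q hq hpq
        rcases mem_insert.mp hp with rfl | hp
        · rcases mem_insert.mp hq with rfl | hq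
          · exact absurd rfl hpq
          · refine ⟨?_, ?_, ?_, ?_⟩
            · intro h; exact hxF (mem_ends.mpr ⟨q, hq, Or.inl h.symm⟩)
            · intro h; exact hxF (mem_ends.mpr ⟨q, hq, Or.inr h.symm⟩)
            · intro h; exact hyF (mem_ends.mpr ⟨q, hq, Or.inl h.symm⟩)
            · intro h; exact hyF (mem_ends.mpr ⟨q, hq, Or.inr h.symm⟩)
        · rcases mem_insert.mp hq with rfl | hq
          · refine ⟨?_, ?_, ?_, ?_⟩
            · intro h; exact hxF (mem_ends.mpr ⟨p, hp, Or.inl h⟩)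
            · intro h; exact hyF (mem_ends.mpr ⟨p, hp, Or.inl h⟩)
            · intro h; exact hxF (mem_ends.mpr ⟨p, hp, Or.inr h⟩)
            · intro h; exact hyF (mem_ends.mpr ⟨p, hp, Or.inr h⟩)
          · exact h3 p hp q hq hpq
    exact Nat.findGreatest_is_greatest (Nat.lt_succ_self _) hlt' hP'

/-! ### Counting by scales -/

lemma scale_count (alive : Finset ℕ) (m : ℕ) : ∀ (Z : Finset ℕ) (x₀ : ℕ),
    (∀ z ∈ Z, x₀ ≤ z ∧ z < x₀ + 2 ^ m) →
    (∀ x ∈ Z, ∀ y ∈ Z, ∀ ρ < m, x + 2 ^ ρ ≤ y → y < x + 2 ^ (ρ + 1) → ρ ∈ alive) →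
    Z.card ≤ 2 ^ (alive.filter (fun ρ => ρ < m)).card := by
  classical
  induction m with
  | zero =>
    intro Z x₀ h1 _
    have : Z ⊆ {x₀} := by
      intro z hz
      have := h1 z hz
      rw [pow_zero] at this
      rw [mem_singleton]; omega
    calc Z.card ≤ ({x₀} : Finset ℕ).card := card_le_card this
      _ = 1 := card_singleton _
      _ ≤ _ := Nat.one_le_two_pow
  | succ m ih =>
    intro Z x₀ h1 h2
    by_cases hm : m ∈ alive
    · have hcard : (alive.filter (fun ρ => ρ < m + 1)).card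
          = (alive.filter (fun ρ => ρ < m)).card + 1 := by
        have : alive.filter (fun ρ => ρ < m + 1) = insert m (alive.filter (fun ρ => ρ < m)) := by
          ext ρ
          simp only [mem_filter, mem_insert]
          constructor
          · rintro ⟨h3, h4⟩
            rcases Nat.lt_or_ge ρ m with h5 | h5
            · exact Or.inr ⟨h3, h5⟩
            · exact Or.inl (by omega)
          · rintro (rfl | ⟨h3, h4⟩)
            · exact ⟨hm, by omega⟩
            · exact ⟨h3, by omega⟩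
        rw [this, card_insert_of_notMem (by simp)]
      have hlo := ih (Z.filter (fun z => z < x₀ + 2 ^ m)) x₀ (by
          intro z hz
          rw [mem_filter] at hz
          exact ⟨(h1 z hz.1).1, hz.2⟩) (by
          intro x hx y hy ρ hρ
          rw [mem_filter] at hx hy
          exact h2 x hx.1 y hy.1 ρ (by omega))
      have hhi := ih (Z.filter (fun z => ¬ z < x₀ + 2 ^ m)) (x₀ + 2 ^ m) (by
          intro z hz
          rw [mem_filter] at hz
          have := (h1 z hz.1).2
          rw [pow_succ] at this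
          omega) (by
          intro x hx y hy ρ hρ
          rw [mem_filter] at hx hy
          exact h2 x hx.1 y hy.1 ρ (by omega))
      have hsum := card_filter_add_card_filter_not (s := Z) (fun z => z < x₀ + 2 ^ m)
      rw [hcard, pow_succ]
      omega
    · have hcard : alive.filter (fun ρ => ρ < m + 1) = alive.filter (fun ρ => ρ < m) := by
        ext ρ
        simp only [mem_filter]
        constructor
        · rintro ⟨h3, h4⟩
          refine ⟨h3, ?_⟩
          rcases Nat.lt_or_ge ρ m with h5 | h5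
          · exact h5
          · have : ρ = m := by omega
            rw [this] at h3
            exact absurd h3 hm
        · rintro ⟨h3, h4⟩
          exact ⟨h3, by omega⟩
      rw [hcard]
      rcases Z.eq_empty_or_nonempty with hZ | hZ
      · rw [hZ]; simp
      · apply ih Z (Z.min' hZ)
        · intro z hz
          refine ⟨Z.min'_le z hz, ?_⟩
          by_contra hcon
          push Not at hcon
          apply hm
          apply h2 (Z.min' hZ) (Z.min'_mem hZ) z hz m (Nat.lt_succ_self _) hcon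
          have h3 := (h1 z hz).2
          have h4 := (h1 _ (Z.min'_mem hZ)).1
          omega
        · intro x hx y hy ρ hρ
          exact h2 x hx y hy ρ (by omega)

end Pool.Agent.H457Adm.Lower
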