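import Mathlib
import Pool.Agent.H457Adm.Lower2

set_option autoImplicit false
set_option linter.unusedSectionVars false

namespace Pool.Agent.H457Adm.Lower

open Finset Pool.Agent.H457Adm

/-- number of indices `n` with `a n < x` -/
noncomputable def cnt (a : ℕ → ℕ) (x : ℕ) : ℕ := sInf {n | x ≤ a n}

lemma lt_cnt {a : ℕ → ℕ} (ha : StrictMono a) (x n : ℕ) : n < cnt a x ↔ a n < x := by
  have hne : {n | x ≤ a n}.Nonempty := ⟨x, ha.id_le x⟩
  constructor
  · intro h
    have := Nat.notMem_of_lt_sInf h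
    simp only [Set.mem_ofPred_eq, not_le] at this
    exact this
  · intro h
    by_contra hcon
    push Not at hcon
    have h1 : x ≤ a (cnt a x) := Nat.sInf_mem hne
    have h2 := ha.monotone hcon
    omega

lemma cnt_mono {a : ℕ → ℕ} (ha : StrictMono a) {x y : ℕ} (h : x ≤ y) : cnt a x ≤ cnt a y := by
  by_contra hcon
  push Not at hcon
  have h1 := (lt_cnt ha x (cnt a y)).mp hcon
  have h2 : ¬ (cnt a y < cnt a y) := lt_irrefl _
  rw [lt_cnt ha] at h2
  omega

/-- polynomial growth from the gap bound -/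
lemma growth {a : ℕ → ℕ} {c C₀ : ℝ} (hc : 0 ≤ c) (hC₀ : 0 ≤ C₀)
    (hgap : ∀ n : ℕ, (a (n + 1) : ℝ) ≤ a n + C₀ * ((n : ℝ) + 1) ^ c) (n : ℕ) :
    (a n : ℝ) ≤ ((a 0 : ℝ) + C₀) * ((n : ℝ) + 1) ^ (c + 1) := by
  induction n with
  | zero => simp [hC₀]
  | succ n ih =>
    have h1 := hgap n
    have hpos : (0 : ℝ) < (n : ℝ) + 1 := by positivity
    have hpos2 : (0 : ℝ) < (n : ℝ) + 1 + 1 := by positivity
    have e1 : ((n : ℝ) + 1) ^ (c + 1) = ((n : ℝ) + 1) ^ c * ((n : ℝ) + 1) := by
      rw [Real.rpow_add hpos, Real.rpow_one]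
    have e2 : ((n : ℝ) + 1 + 1) ^ (c + 1) = ((n : ℝ) + 1 + 1) ^ c * ((n : ℝ) + 1 + 1) := by
      rw [Real.rpow_add hpos2, Real.rpow_one]
    have h2 : ((n : ℝ) + 1) ^ c ≤ ((n : ℝ) + 1 + 1) ^ c :=
      Real.rpow_le_rpow hpos.le (by linarith) hc
    have h3 : (0 : ℝ) ≤ ((n : ℝ) + 1) ^ c := by positivity
    have h4 : (0 : ℝ) ≤ (a 0 : ℝ) := Nat.cast_nonneg _
    push_cast
    rw [e2]
    rw [e1] at ih
    have h5 : C₀ * ((n : ℝ) + 1) ^ c ≤ ((a 0 : ℝ) + C₀) * ((n : ℝ) + 1) ^ c :=
      mul_le_mul_of_nonneg_right (by linarith) h3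
    calc (a (n + 1) : ℝ) ≤ ((a 0 : ℝ) + C₀) * (((n : ℝ) + 1) ^ c * ((n : ℝ) + 1))
          + ((a 0 : ℝ) + C₀) * ((n : ℝ) + 1) ^ c := by linarith
      _ = ((a 0 : ℝ) + C₀) * (((n : ℝ) + 1) ^ c * ((n : ℝ) + 1 + 1)) := by ring
      _ ≤ ((a 0 : ℝ) + C₀) * (((n : ℝ) + 1 + 1) ^ c * ((n : ℝ) + 1 + 1)) := by
          apply mul_le_mul_of_nonneg_left _ (by positivity)
          exact mul_le_mul_of_nonneg_right h2 hpos2.le

/-- telescoped gap bound -/
lemma gap_sum {a : ℕ → ℕ} {c C₀ : ℝ} (hc : 0 ≤ c) (hC₀ : 0 ≤ C₀)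
    (hgap : ∀ n : ℕ, (a (n + 1) : ℝ) ≤ a n + C₀ * ((n : ℝ) + 1) ^ c) (p q : ℕ) :
    (a (p + q) : ℝ) ≤ a p + q * C₀ * ((p : ℝ) + q) ^ c := by
  induction q with
  | zero => simp
  | succ q ih =>
    have h1 := hgap (p + q)
    have h2 : ((p : ℝ) + q) ^ c ≤ ((p : ℝ) + q + 1) ^ c :=
      Real.rpow_le_rpow (by positivity) (by linarith) hc
    have h3 : (q : ℝ) * C₀ * ((p : ℝ) + q) ^ c ≤ (q : ℝ) * C₀ * ((p : ℝ) + q + 1) ^ c :=
      mul_le_mul_of_nonneg_left h2 (by positivity)
    rw [← add_assoc]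
    push_cast at h1 ⊢
    rw [← add_assoc]
    nlinarith

/-- the number of covered digits below `I` -/
noncomputable def Sc (A : Set ℕ) (k I : ℕ) : ℕ := by
  classical exact ((range I).filter (fun i => Covered A k i)).card

lemma Sc_le (A : Set ℕ) (k I : ℕ) : Sc A k I ≤ I := by
  classical
  unfold Sc
  calc _ ≤ (range I).card := card_filter_le _ _
    _ = I := card_range I

/-- Part (α). -/
theorem alpha {a : ℕ → ℕ} {c C₀ : ℝ} (ha : StrictMono a) (hpos : ∀ n, 1 ≤ a n)
    (hA : Admissible (Set.range a)) (hc : 0 ≤ c) (hC₀ : 0 ≤ C₀)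
    (hgap : ∀ n : ℕ, (a (n + 1) : ℝ) ≤ a n + C₀ * ((n : ℝ) + 1) ^ c) :
    ∃ K : ℝ, 0 ≤ K ∧ ∀ k : ℕ, 3 ≤ k → ∀ I : ℕ,
      ((k : ℝ) - 3) * Sc (Set.range a) k I ≤ I * k * ((c + 1) / (c + 2)) + K := by
  classical
  set C : ℝ := (a 0 : ℝ) + C₀ with hC
  have hC1 : 1 ≤ C := by
    have : (1 : ℝ) ≤ a 0 := by exact_mod_cast hpos 0
    rw [hC]; linarith
  have hCpos : 0 < C := by linarith
  have hc2 : (0 : ℝ) < c + 2 := by linarith
  refine ⟨4 + Real.logb 2 C / (c + 2), ?_, ?_⟩
  · have : 0 ≤ Real.logb 2 C := Real.logb_nonneg (by norm_num) hC1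
    positivity
  intro k hk I
  set S := Sc (Set.range a) k I with hS
  set y : ℝ := (2 ^ (I * k) / C) ^ (1 / (c + 2)) with hy
  have hypos : 0 < y := by positivity
  have hkey : y * 2 ^ ((k - 3) * S) ≤ 16 * 2 ^ (I * k) := by
    rcases lt_or_ge y 1 with hy1 | hy1
    · have h1 : (2 : ℝ) ^ ((k - 3) * S) ≤ 2 ^ (I * k) := by
        apply pow_le_pow_right₀ (by norm_num)
        calc (k - 3) * S ≤ k * I := Nat.mul_le_mul (Nat.sub_le _ _) (Sc_le _ _ _)
          _ = I * k := mul_comm _ _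
      have h2 : (0 : ℝ) < 2 ^ (I * k) := by positivity
      have h3 : (0 : ℝ) < 2 ^ ((k - 3) * S) := by positivity
      nlinarith
    · set n := ⌊y⌋₊ with hn
      have hn1 : (n : ℝ) ≤ y := Nat.floor_le hypos.le
      have hn2 : y < n + 1 := Nat.lt_floor_add_one y
      have hn3 : 1 ≤ n := Nat.le_floor (by exact_mod_cast hy1)
      have hn3' : (1 : ℝ) ≤ n := by exact_mod_cast hn3
      have hyn : y ≤ 2 * n := by linarith
      set B : Finset ℕ := (range n).image a with hB
      have hBA : (B : Set ℕ) ⊆ Set.range a := by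
        intro x hx
        rw [hB, mem_coe, mem_image] at hx
        obtain ⟨i, _, rfl⟩ := hx
        exact ⟨i, rfl⟩
      have hBcard : B.card = n := by
        rw [hB, card_image_of_injective _ ha.injective, card_range]
      have hBsum : ∑ x ∈ B, x ≤ 2 ^ (I * k) := by
        have e1 : ∑ x ∈ B, x = ∑ i ∈ range n, a i := by
          rw [hB, sum_image (fun x _ y _ h => ha.injective h)]
        have e2 : (∑ i ∈ range n, (a i : ℝ)) ≤ 2 ^ (I * k) := by
          calc (∑ i ∈ range n, (a i : ℝ)) ≤ ∑ i ∈ range n, C * (n : ℝ) ^ (c + 1) := by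
                apply sum_le_sum
                intro i hi
                rw [mem_range] at hi
                have h1 := growth hc hC₀ hgap i
                have h2 : (i : ℝ) + 1 ≤ n := by exact_mod_cast hi
                have h3 : ((i : ℝ) + 1) ^ (c + 1) ≤ (n : ℝ) ^ (c + 1) :=
                  Real.rpow_le_rpow (by positivity) h2 (by linarith)
                exact h1.trans (mul_le_mul_of_nonneg_left h3 hCpos.le)
            _ = C * (n : ℝ) ^ (c + 2) := by
                rw [sum_const, card_range, nsmul_eq_mul]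
                have hn0 : (n : ℝ) ≠ 0 := by linarith
                have : (n : ℝ) ^ (c + 2) = (n : ℝ) ^ (c + 1) * n := by
                  rw [← Real.rpow_add_one hn0]
                  congr 1
                  ring
                rw [this]
                ring
            _ ≤ C * y ^ (c + 2) := by
                apply mul_le_mul_of_nonneg_left _ hCpos.le
                exact Real.rpow_le_rpow (by linarith) hn1 hc2.le
            _ = 2 ^ (I * k) := by
                rw [hy, ← Real.rpow_mul (by positivity), one_div_mul_cancel hc2.ne', Real.rpow_one]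
                field_simp
        rw [e1]
        exact_mod_cast e2
      have hpb := product_bound hA (by rintro x ⟨i, rfl⟩; exact hpos i) k hk I
        ((range I).filter (fun i => Covered (Set.range a) k i))
        (by intro i hi; rw [mem_filter, mem_range] at hi; exact hi.1)
        (by intro i hi; rw [mem_filter] at hi; exact hi.2) B hBA hBsum
      have hScard : ((range I).filter (fun i => Covered (Set.range a) k i)).card = S := by
        rw [hS]; unfold Sc; congr
      rw [hBcard, hScard] at hpb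
      have hpb' : (n : ℝ) * 2 ^ ((k - 3) * S) ≤ 8 * 2 ^ (I * k) := by exact_mod_cast hpb
      have h3 : (0 : ℝ) < 2 ^ ((k - 3) * S) := by positivity
      nlinarith
  have hlog := Real.logb_le_logb_of_le (b := 2) (by norm_num) (by positivity) hkey
  rw [Real.logb_mul hypos.ne' (by positivity), Real.logb_mul (by norm_num) (by positivity),
    Real.logb_pow, Real.logb_pow, Real.logb_self_eq_one (by norm_num)] at hlog
  have h16 : Real.logb 2 16 = 4 := by
    rw [show (16 : ℝ) = 2 ^ (4 : ℕ) by norm_num, Real.logb_pow,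
      Real.logb_self_eq_one (by norm_num)]
    norm_num
  have hly : Real.logb 2 y = ((I * k : ℕ) - Real.logb 2 C) / (c + 2) := by
    rw [hy, Real.logb_rpow_eq_mul_logb_of_pos (by positivity),
      Real.logb_div (by positivity) hCpos.ne', Real.logb_pow,
      Real.logb_self_eq_one (by norm_num)]
    ring
  rw [h16, hly] at hlog
  have hk3 : ((k - 3 : ℕ) : ℝ) = (k : ℝ) - 3 := by
    rw [Nat.cast_sub hk]; norm_num
  push_cast at hlog
  rw [hk3] at hlog
  have e1 : (c + 1) / (c + 2) = 1 - 1 / (c + 2) := by field_simp; ring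
  rw [e1]
  have e2 : ((I : ℝ) * k - Real.logb 2 C) / (c + 2)
      = I * k * (1 / (c + 2)) - Real.logb 2 C / (c + 2) := by ring
  rw [e2] at hlog
  linarith

/-- Part (β). -/
theorem beta {a : ℕ → ℕ} {c C₀ : ℝ} (ha : StrictMono a) (hc : 0 ≤ c) (hC₀ : 0 ≤ C₀)
    (hgap : ∀ n : ℕ, (a (n + 1) : ℝ) ≤ a n + C₀ * ((n : ℝ) + 1) ^ c) (k s : ℕ) (hk : 2 ≤ k)
    (hs : 1 ≤ s) (hunc : ¬ Covered (Set.range a) k s)
    (E : ℕ) (hE : E = 2 * k * (wt s * 4 ^ k)) (hlarge : a E ≤ 2 ^ (s * k - 1)) :
    (2 : ℝ) ^ (s * k) ≤ ((E : ℝ) + 1) * C₀ * ((cnt a (2 ^ (s * k)) : ℝ) + E) ^ c := by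
  classical
  have hsk : (s - 1) * k + k = s * k := by
    obtain ⟨t, rfl⟩ : ∃ t, s = t + 1 := ⟨s - 1, by omega⟩
    simp only [Nat.add_sub_cancel]
    ring
  have hs1k : (s + 1) * k = s * k + k := by ring
  have hcov : ∀ ρ, ∃ X : Finset ℕ, (s - 1) * k < ρ → ρ ≤ s * k →
      (X.card ≤ 2 * (wt s * 4 ^ k) ∧ ∀ x ∈ Set.range a, ∀ y ∈ Set.range a, x ∉ X → y ∉ X →
        x + 2 ^ ρ ≤ y → y < x + 2 ^ (ρ + 1) → False) := by
    intro ρ
    by_cases h : (s - 1) * k < ρ ∧ ρ ≤ s * k
    · have hnot : ¬ Mat (Set.range a) ρ (wt s * 4 ^ k) := by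
        intro hM
        apply hunc
        refine ⟨ρ, h.2, hM.mono ?_⟩
        apply Nat.mul_le_mul_left
        rw [show (4 : ℕ) = 2 ^ 2 by norm_num, ← pow_mul]
        apply Nat.pow_le_pow_right (by norm_num)
        omega
      obtain ⟨X, hX1, hX2⟩ := vertex_cover hnot
      exact ⟨X, fun _ _ => ⟨hX1, hX2⟩⟩
    · exact ⟨∅, fun h1 h2 => absurd ⟨h1, h2⟩ h⟩
  choose X hX using hcov
  set XX : Finset ℕ := (Ioc ((s - 1) * k) (s * k)).biUnion X with hXX
  have hXXcard : XX.card ≤ E := by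
    calc XX.card ≤ ∑ ρ ∈ Ioc ((s - 1) * k) (s * k), (X ρ).card := card_biUnion_le
      _ ≤ ∑ ρ ∈ Ioc ((s - 1) * k) (s * k), 2 * (wt s * 4 ^ k) := by
          apply sum_le_sum
          intro ρ hρ
          rw [mem_Ioc] at hρ
          exact (hX ρ hρ.1 hρ.2).1
      _ = E := by
          rw [sum_const, Nat.card_Ioc, smul_eq_mul, hE]
          have : s * k - (s - 1) * k = k := by omega
          rw [this]; ring
  obtain ⟨j, hjE, hjX⟩ : ∃ j, j ≤ E ∧ a j ∉ XX := by
    by_contra hcon
    push Not at hcon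
    have h1 : (range (E + 1)).image a ⊆ XX := by
      intro x hx
      rw [mem_image] at hx
      obtain ⟨i, hi, rfl⟩ := hx
      rw [mem_range] at hi
      exact hcon i (by omega)
    have h2 := card_le_card h1
    rw [card_image_of_injective _ ha.injective, card_range] at h2
    omega
  set u : ℕ := 2 ^ ((s - 1) * k + 1) with hu
  set v : ℕ := 2 ^ (s * k + 1) with hv
  have hupos : 0 < u := by positivity
  set m := cnt a (a j + u) with hm
  have hm1 : j < m := (lt_cnt ha _ _).mpr (by omega)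
  obtain ⟨m', hm'⟩ : ∃ m', m = m' + 1 := ⟨m - 1, by omega⟩
  have hm'2 : a m' < a j + u := (lt_cnt ha _ _).mp (by omega)
  have hbig : a j + v ≤ a (m + E) := by
    by_contra hcon
    push Not at hcon
    have h1 : (Icc m (m + E)).image a ⊆ XX := by
      intro x hx
      rw [mem_image] at hx
      obtain ⟨i, hi, rfl⟩ := hx
      rw [mem_Icc] at hi
      have h2 : a j + u ≤ a i := by
        by_contra hlt
        push Not at hlt
        have := (lt_cnt ha _ _).mpr hlt
        omega
      have h3 : a i < a j + v := lt_of_le_of_lt (ha.monotone hi.2) hcon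
      obtain ⟨d, hd⟩ : ∃ d, a i = a j + d := ⟨a i - a j, by omega⟩
      have hd0 : d ≠ 0 := by omega
      have hl1 := Nat.pow_log_le_self 2 hd0
      have hl2 := Nat.lt_pow_succ_log_self (b := 2) (by norm_num) d
      set ρ := Nat.log 2 d with hρ
      have hρ1 : (s - 1) * k < ρ := by
        have : 2 ^ ((s - 1) * k + 1) < 2 ^ (ρ + 1) := by
          calc 2 ^ ((s - 1) * k + 1) ≤ d := by omega
            _ < _ := hl2
        have := (Nat.pow_lt_pow_iff_right (by norm_num)).mp this
        omega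
      have hρ2 : ρ ≤ s * k := by
        have : 2 ^ ρ < 2 ^ (s * k + 1) := by
          calc 2 ^ ρ ≤ d := hl1
            _ < _ := by omega
        have := (Nat.pow_lt_pow_iff_right (by norm_num)).mp this
        omega
      have hmemρ : ρ ∈ Ioc ((s - 1) * k) (s * k) := mem_Ioc.mpr ⟨hρ1, hρ2⟩
      by_contra hnx
      apply (hX ρ hρ1 hρ2).2 (a j) ⟨j, rfl⟩ (a i) ⟨i, rfl⟩
      · intro h; exact hjX (mem_biUnion.mpr ⟨ρ, hmemρ, h⟩)
      · intro h; exact hnx (mem_biUnion.mpr ⟨ρ, hmemρ, h⟩)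
      · omega
      · rw [Nat.succ_eq_add_one] at hl2; omega
    have h2 := card_le_card h1
    rw [card_image_of_injective _ ha.injective, Nat.card_Icc] at h2
    omega
  have huv : u + 2 ^ (s * k) ≤ v := by
    have h1 : u ≤ 2 ^ (s * k) := Nat.pow_le_pow_right (by norm_num) (by omega)
    have h2 : v = 2 ^ (s * k) + 2 ^ (s * k) := by rw [hv, pow_succ]; ring
    omega
  have hmle : m ≤ cnt a (2 ^ (s * k)) := by
    apply cnt_mono ha
    have h1 : a j ≤ 2 ^ (s * k - 1) := (ha.monotone hjE).trans hlarge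
    have h2 : u ≤ 2 ^ (s * k - 1) := Nat.pow_le_pow_right (by norm_num) (by omega)
    have h3 : 2 ^ (s * k) = 2 ^ (s * k - 1) + 2 ^ (s * k - 1) := by
      have : s * k = (s * k - 1) + 1 := by
        have : 1 ≤ s * k := by nlinarith
        omega
      conv_lhs => rw [this, pow_succ]
      ring
    omega
  have hg := gap_sum hc hC₀ hgap m' (E + 1)
  have e1 : m' + (E + 1) = m + E := by omega
  rw [e1] at hg
  have h4 : a m' + 2 ^ (s * k) ≤ a (m + E) := by omega
  have h4' : (a m' : ℝ) + 2 ^ (s * k) ≤ a (m + E) := by exact_mod_cast h4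
  have h5 : ((m' : ℝ) + ((E + 1 : ℕ) : ℝ)) ^ c ≤ ((cnt a (2 ^ (s * k)) : ℝ) + E) ^ c := by
    apply Real.rpow_le_rpow (by positivity) _ hc
    have h6 : m' + (E + 1) ≤ cnt a (2 ^ (s * k)) + E := by omega
    exact_mod_cast h6
  have h7 : ((E + 1 : ℕ) : ℝ) * C₀ * ((m' : ℝ) + ((E + 1 : ℕ) : ℝ)) ^ c
      ≤ ((E + 1 : ℕ) : ℝ) * C₀ * ((cnt a (2 ^ (s * k)) : ℝ) + E) ^ c :=
    mul_le_mul_of_nonneg_left h5 (by positivity)
  have h8 : ((E + 1 : ℕ) : ℝ) = (E : ℝ) + 1 := by push_cast; ring
  rw [h8] at h7 hg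
  linarith

/-- the starting points of covered windows of length `b` below `s` -/
noncomputable def TT (A : Set ℕ) (k s b : ℕ) : Finset ℕ := by
  classical
  exact (range s).filter (fun i => i + b ≤ s ∧ ∀ j, i ≤ j → j < i + b → Covered A k j)

lemma mem_TT {A : Set ℕ} {k s b i : ℕ} : i ∈ TT A k s b ↔
    i < s ∧ i + b ≤ s ∧ ∀ j, i ≤ j → j < i + b → Covered A k j := by
  classical
  unfold TT
  rw [mem_filter, mem_range]

/-- Part (γ). -/
theorem gamma {a : ℕ → ℕ} (ha : StrictMono a) (k s h b : ℕ) (hk : 1 ≤ k)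
    (hunc : ¬ Covered (Set.range a) k s)
    (hh : 4 * (s * k) * (wt s * 2 ^ h) ≤ cnt a (2 ^ (s * k))) (hb : b + 1 ≤ h / k)
    (hb1 : 1 ≤ b) :
    cnt a (2 ^ (s * k)) ≤ 2 ^ (k * (TT (Set.range a) k s b).card + 1) := by
  classical
  set n := cnt a (2 ^ (s * k)) with hn
  let killed : ℕ → Prop := fun ρ => ∃ e, e ≤ s ∧ ¬ Covered (Set.range a) k e ∧ ρ ≤ e * k ∧
    (e + 1) * k ≤ ρ + h
  have hcov : ∀ ρ, ∃ X : Finset ℕ, X.card ≤ 2 * (wt s * 2 ^ h) ∧ (killed ρ →
      ∀ x ∈ Set.range a, ∀ y ∈ Set.range a, x ∉ X → y ∉ X →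
        x + 2 ^ ρ ≤ y → y < x + 2 ^ (ρ + 1) → False) := by
    intro ρ
    by_cases hkl : killed ρ
    · obtain ⟨e, he1, he2, he3, he4⟩ := hkl
      have hnot : ¬ Mat (Set.range a) ρ (wt s * 2 ^ h) := by
        intro hM
        apply he2
        refine ⟨ρ, he3, hM.mono ?_⟩
        apply Nat.mul_le_mul
        · unfold wt
          exact Nat.mul_le_mul (by omega) (by omega)
        · apply Nat.pow_le_pow_right (by norm_num)
          omega
      obtain ⟨X, hX1, hX2⟩ := vertex_cover hnot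
      exact ⟨X, hX1, fun _ => hX2⟩
    · exact ⟨∅, by simp, fun h => absurd h hkl⟩
  choose X hX using hcov
  set XX : Finset ℕ := (range (s * k)).biUnion X with hXX
  have hXXcard : XX.card ≤ s * k * (2 * (wt s * 2 ^ h)) := by
    calc XX.card ≤ ∑ ρ ∈ range (s * k), (X ρ).card := card_biUnion_le
      _ ≤ ∑ ρ ∈ range (s * k), 2 * (wt s * 2 ^ h) := by
          apply sum_le_sum
          intro ρ _
          exact (hX ρ).1
      _ = s * k * (2 * (wt s * 2 ^ h)) := by
          rw [sum_const, card_range, smul_eq_mul]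
  have h2X : 2 * XX.card ≤ n := by
    calc 2 * XX.card ≤ 2 * (s * k * (2 * (wt s * 2 ^ h))) := Nat.mul_le_mul_left _ hXXcard
      _ = 4 * (s * k) * (wt s * 2 ^ h) := by ring
      _ ≤ n := hh
  set Z : Finset ℕ := (range n).image a with hZ
  have hZcard : Z.card = n := by
    rw [hZ, card_image_of_injective _ ha.injective, card_range]
  have hZXcard : n ≤ 2 * (Z \ XX).card := by
    have := le_card_sdiff XX Z
    omega
  set alive : Finset ℕ := (range (s * k)).filter (fun ρ => ¬ killed ρ) with halive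
  have hsc := scale_count alive (s * k) (Z \ XX) 0 (by
      intro z hz
      rw [mem_sdiff, hZ, mem_image] at hz
      obtain ⟨⟨i, hi, rfl⟩, _⟩ := hz
      rw [mem_range] at hi
      have := (lt_cnt ha _ _).mp hi
      exact ⟨Nat.zero_le _, by omega⟩) (by
      intro x hx y hy ρ hρ h1 h2
      rw [mem_sdiff, hZ, mem_image] at hx hy
      obtain ⟨⟨i, hi, rfl⟩, hix⟩ := hx
      obtain ⟨⟨j, hj, rfl⟩, hjx⟩ := hy
      rw [halive, mem_filter, mem_range]
      refine ⟨hρ, fun hkl => ?_⟩
      have hmemρ : ρ ∈ range (s * k) := mem_range.mpr hρ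
      apply (hX ρ).2 hkl (a i) ⟨i, rfl⟩ (a j) ⟨j, rfl⟩ _ _ h1 h2
      · intro h; exact hix (mem_biUnion.mpr ⟨ρ, hmemρ, h⟩)
      · intro h; exact hjx (mem_biUnion.mpr ⟨ρ, hmemρ, h⟩))
  have hal : alive.card ≤ k * (TT (Set.range a) k s b).card := by
    apply card_le_mul_card_image_of_maps_to (f := fun ρ => (ρ + k - 1) / k)
    · intro ρ hρ
      rw [halive, mem_filter, mem_range] at hρ
      obtain ⟨hρ1, hρ2⟩ := hρ
      obtain ⟨i, hi⟩ : ∃ i, i = (ρ + k - 1) / k := ⟨_, rfl⟩
      have hi1 : i * k ≤ ρ + k - 1 := by rw [hi]; exact Nat.div_mul_le_self _ _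
      have hi2 : ρ + k - 1 < (i + 1) * k := by
        rw [hi, mul_comm]; exact Nat.lt_mul_div_succ _ (by omega)
      rw [← hi, mem_TT]
      have e1 : (i + 1) * k = i * k + k := by ring
      have hρi : ρ ≤ i * k := by omega
      have his : i ≤ s := by
        by_contra hcon
        push Not at hcon
        have : (s + 1) * k ≤ i * k := Nat.mul_le_mul_right _ hcon
        have e2 : (s + 1) * k = s * k + k := by ring
        omega
      have hclaim : ∀ e, i ≤ e → e ≤ s → ¬ Covered (Set.range a) k e → i + b ≤ e := by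
        intro e hie hes hne
        have h1 : ρ ≤ e * k := hρi.trans (Nat.mul_le_mul_right _ hie)
        have h2 : ρ + h < (e + 1) * k := by
          by_contra hcon
          push Not at hcon
          exact hρ2 ⟨e, hes, hne, h1, hcon⟩
        have h3 : h < k * (e + 2 - i) := by
          have e3 : k * (e + 2 - i) + i * k = (e + 2) * k := by
            obtain ⟨f, rfl⟩ : ∃ f, e = i + f := ⟨e - i, by omega⟩
            have : i + f + 2 - i = f + 2 := by omega
            rw [this]; ring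
          have e4 : (e + 2) * k = (e + 1) * k + k := by ring
          omega
        have h4 := Nat.div_lt_of_lt_mul h3
        omega
      have hibs := hclaim s his le_rfl hunc
      refine ⟨by omega, hibs, ?_⟩
      intro j hj1 hj2
      by_contra hcon
      have := hclaim j hj1 (by omega) hcon
      omega
    · intro i _
      calc ((alive.filter (fun ρ => (ρ + k - 1) / k = i))).card
          ≤ (Ico (i * k + 1) (i * k + 1 + k)).card := by
            apply card_le_card_of_injOn (fun ρ => ρ + k)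
            · intro ρ hρ
              rw [mem_coe, mem_filter] at hρ
              obtain ⟨_, hi⟩ := hρ
              have hi1 : i * k ≤ ρ + k - 1 := by rw [← hi]; exact Nat.div_mul_le_self _ _
              have hi2 : ρ + k - 1 < (i + 1) * k := by
                rw [← hi, mul_comm]; exact Nat.lt_mul_div_succ _ (by omega)
              have e1 : (i + 1) * k = i * k + k := by ring
              rw [coe_Ico, Set.mem_Ico]
              simp only
              omega
            · intro x _ y _ hxy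
              simp only at hxy
              omega
        _ = k := by rw [Nat.card_Ico]; omega
  have hfil : (alive.filter (fun ρ => ρ < s * k)).card ≤ k * (TT (Set.range a) k s b).card :=
    (card_filter_le _ _).trans hal
  calc n ≤ 2 * (Z \ XX).card := hZXcard
    _ ≤ 2 * 2 ^ (k * (TT (Set.range a) k s b).card) :=
        Nat.mul_le_mul_left _ (hsc.trans (Nat.pow_le_pow_right (by norm_num) hfil))
    _ = 2 ^ (k * (TT (Set.range a) k s b).card + 1) := by rw [pow_succ]; ring

end Pool.Agent.H457Adm.Lower
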