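import Mathlib
import Pool.Agent.H457Adm.Lower3

set_option autoImplicit false
set_option linter.unusedSectionVars false

namespace Pool.Agent.H457Adm.Lower

open Finset Pool.Agent.H457Adm

lemma Sc_add (A : Set ℕ) (k t s : ℕ) (hts : t ≤ s) (F : Finset ℕ)
    (hF : ∀ j ∈ F, t ≤ j ∧ j < s ∧ Covered A k j) : Sc A k t + F.card ≤ Sc A k s := by
  classical
  unfold Sc
  have hdis : Disjoint ((range t).filter (fun i => Covered A k i)) F := by
    rw [Finset.disjoint_left]
    intro x hx hxF
    rw [mem_filter, mem_range] at hx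
    have := hF x hxF
    omega
  rw [← card_union_of_disjoint hdis]
  apply card_le_card
  intro x hx
  rw [mem_union] at hx
  rcases hx with hx | hx
  · rw [mem_filter, mem_range] at hx ⊢
    exact ⟨by omega, hx.2⟩
  · rw [mem_filter, mem_range]
    exact ⟨(hF x hx).2.1, (hF x hx).2.2⟩

lemma Sc_run (A : Set ℕ) (k t e : ℕ) (hte : t ≤ e)
    (h : ∀ j, t ≤ j → j < e → Covered A k j) : Sc A k e = Sc A k t + (e - t) := by
  apply le_antisymm
  · classical
    unfold Sc
    have : (range e).filter (fun i => Covered A k i)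
        ⊆ (range t).filter (fun i => Covered A k i) ∪ Ico t e := by
      intro x hx
      rw [mem_filter, mem_range] at hx
      rw [mem_union, mem_filter, mem_range, mem_Ico]
      rcases Nat.lt_or_ge x t with h1 | h1
      · exact Or.inl ⟨h1, hx.2⟩
      · exact Or.inr ⟨h1, hx.1⟩
    calc _ ≤ ((range t).filter (fun i => Covered A k i) ∪ Ico t e).card := card_le_card this
      _ ≤ ((range t).filter (fun i => Covered A k i)).card + (Ico t e).card := card_union_le _ _
      _ = _ := by rw [Nat.card_Ico]
  · have := Sc_add A k t e hte (Ico t e) (by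
      intro j hj
      rw [mem_Ico] at hj
      exact ⟨hj.1, hj.2, h j hj.1 hj.2⟩)
    rw [Nat.card_Ico] at this
    exact this

lemma Sc_mono (A : Set ℕ) (k : ℕ) {t s : ℕ} (h : t ≤ s) : Sc A k t ≤ Sc A k s := by
  have := Sc_add A k t s h ∅ (by simp)
  simpa using this

lemma Sc_succ_of_not (A : Set ℕ) (k t : ℕ) (h : ¬ Covered A k t) :
    Sc A k (t + 1) = Sc A k t := by
  classical
  unfold Sc
  congr 1
  ext x
  rw [mem_filter, mem_filter, mem_range, mem_range]
  constructor
  · rintro ⟨h1, h2⟩
    refine ⟨?_, h2⟩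
    rcases Nat.lt_or_ge x t with h3 | h3
    · exact h3
    · have : x = t := by omega
      rw [this] at h2
      exact absurd h2 h
  · rintro ⟨h1, h2⟩
    exact ⟨by omega, h2⟩

/-- The combinatorial core: the first covered window below `s`. -/
theorem comb (A : Set ℕ) (k s b : ℕ) (hunc : ¬ Covered A k s) (hb : 1 ≤ b)
    (hne : (TT A k s b).Nonempty) :
    ∃ t e, t + b ≤ e ∧ e ≤ s ∧ ¬ Covered A k e ∧ (∀ j, t ≤ j → j < e → Covered A k j) ∧
      (t = 0 ∨ ¬ Covered A k (t - 1)) ∧
      ((TT A k s b).card + b ≤ (e - t) + 1 ∨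
        Sc A k t + (TT A k s b).card + 2 * b ≤ Sc A k s + 2) := by
  classical
  set t := (TT A k s b).min' hne with ht
  have htm : t ∈ TT A k s b := min'_mem _ _
  obtain ⟨t1, t2, t3⟩ := mem_TT.mp htm
  have hex : ∃ e, t ≤ e ∧ ¬ Covered A k e := ⟨s, t1.le, hunc⟩
  set e := Nat.find hex with he
  obtain ⟨e1, e2⟩ := Nat.find_spec hex
  have e3 : e ≤ s := Nat.find_min' hex ⟨t1.le, hunc⟩
  have e4 : ∀ j, t ≤ j → j < e → Covered A k j := by
    intro j hj1 hj2
    have := Nat.find_min hex hj2
    by_contra hcon
    exact this ⟨hj1, hcon⟩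
  rw [← he] at e1 e2
  have e5 : t + b ≤ e := by
    by_contra hcon
    push Not at hcon
    exact e2 (t3 e e1 hcon)
  have hkey : ∀ i ∈ TT A k s b, i < e → i + b ≤ e := by
    intro i hi hie
    obtain ⟨i1, i2, i3⟩ := mem_TT.mp hi
    by_contra hcon
    push Not at hcon
    exact e2 (i3 e hie.le hcon)
  refine ⟨t, e, e5, e3, e2, e4, ?_, ?_⟩
  · rcases Nat.eq_zero_or_pos t with h0 | h0
    · exact Or.inl h0
    · right
      intro hcov
      have : t - 1 ∈ TT A k s b := by
        rw [mem_TT]
        refine ⟨by omega, by omega, ?_⟩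
        intro j hj1 hj2
        rcases Nat.lt_or_ge j t with h1 | h1
        · have : j = t - 1 := by omega
          rw [this]; exact hcov
        · exact t3 j h1 (by omega)
      have := min'_le _ _ this
      rw [← ht] at this
      omega
  · by_cases hcase : ∀ i ∈ TT A k s b, i < e
    · left
      have hsub : TT A k s b ⊆ Icc t (e - b) := by
        intro i hi
        rw [mem_Icc]
        have h1 := min'_le _ _ hi
        rw [← ht] at h1
        have h2 := hkey i hi (hcase i hi)
        omega
      have := card_le_card hsub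
      rw [Nat.card_Icc] at this
      omega
    · right
      push Not at hcase
      obtain ⟨i₀, hi₀, hi₀e⟩ := hcase
      set M := (TT A k s b).max' hne with hM
      have hMm : M ∈ TT A k s b := max'_mem _ _
      obtain ⟨M1, M2, M3⟩ := mem_TT.mp hMm
      have hMe : e ≤ M := hi₀e.trans (le_max' _ _ hi₀)
      have hd1 : Disjoint (TT A k s b) (Ioo (e - b) e) := by
        rw [Finset.disjoint_left]
        intro i hi hi2
        rw [mem_Ioo] at hi2
        have := hkey i hi hi2.2
        omega
      have hd2 : Disjoint (TT A k s b ∪ Ioo (e - b) e) (Ioo M (M + b)) := by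
        rw [Finset.disjoint_left]
        intro i hi hi2
        rw [mem_Ioo] at hi2
        rw [mem_union] at hi
        rcases hi with hi | hi
        · have := le_max' _ _ hi
          rw [← hM] at this
          omega
        · rw [mem_Ioo] at hi
          omega
      have hadd := Sc_add A k t s t1.le (TT A k s b ∪ Ioo (e - b) e ∪ Ioo M (M + b)) (by
        intro j hj
        rw [mem_union, mem_union] at hj
        rcases hj with (hj | hj) | hj
        · obtain ⟨j1, j2, j3⟩ := mem_TT.mp hj
          have h1 := min'_le _ _ hj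
          rw [← ht] at h1
          exact ⟨h1, j1, j3 j le_rfl (by omega)⟩
        · rw [mem_Ioo] at hj
          exact ⟨by omega, by omega, e4 j (by omega) hj.2⟩
        · rw [mem_Ioo] at hj
          exact ⟨by omega, by omega, M3 j hj.1.le hj.2⟩)
      rw [card_union_of_disjoint hd2, card_union_of_disjoint hd1, Nat.card_Ioo,
        Nat.card_Ioo] at hadd
      omega

end Pool.Agent.H457Adm.Lower
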