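import Mathlib
import Pool.Agent.H457Adm.Lower4

set_option autoImplicit false
set_option linter.unusedSectionVars false

namespace Pool.Agent.H457Adm.Lower

open Finset Pool.Agent.H457Adm Filter

/-! ### Numerical inequalities -/

lemma c_lt {c : ℝ} (hc4 : 4 ≤ c) (hc : c ^ 2 - 5 * c + 2 < 0) : c < 4.562 := by
  by_contra hcon
  push Not at hcon
  nlinarith

lemma gam_le {c x : ℝ} (hc4 : 4 ≤ c) (hc : c ^ 2 - 5 * c + 2 < 0) (hx : 0 ≤ x) :
    c * (c + 1) - (c + 2) * x ≤ 26 := by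
  have h1 := c_lt hc4 hc
  nlinarith

lemma q_bounds {c : ℝ} (hc4 : 4 ≤ c) (hc : c ^ 2 - 5 * c + 2 < 0) :
    0 < (c + 1) / 4 * (5 * c - c ^ 2 - 2) ∧ (c + 1) / 4 * (5 * c - c ^ 2 - 2) ≤ 3 := by
  have h1 := c_lt hc4 hc
  constructor
  · apply mul_pos
    · linarith
    · linarith
  · have h2 : 5 * c - c ^ 2 - 2 ≤ 2 := by nlinarith
    have h3 : 0 < 5 * c - c ^ 2 - 2 := by linarith
    nlinarith

lemma case1 {c x q θ B S w : ℝ} (hc4 : 4 ≤ c) (hc : c ^ 2 - 5 * c + 2 < 0)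
    (hx : 0 ≤ x) (hxc : x ≤ c) (hq : q = (c + 1) / 4 * (5 * c - c ^ 2 - 2))
    (hθ : θ = 1 - q / 400) (hB : 0 < B) (hS : 0 ≤ S)
    (h1 : x * w ≤ (c * (c + 1) - (c + 2) * x) * S) (h2 : 2 * (θ * B) ≤ w)
    (h3 : S < (x + q / 200) * B - 2 * (θ * B)) : False := by
  have hclt := c_lt hc4 hc
  obtain ⟨hq0, hq3⟩ := q_bounds hc4 hc
  rw [← hq] at hq0 hq3
  have hG := gam_le hc4 hc hx
  have hθ9 : 0.9 ≤ θ := by rw [hθ]; linarith
  obtain ⟨Γ, hΓ⟩ : ∃ Γ, Γ = c * (c + 1) - (c + 2) * x := ⟨_, rfl⟩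
  rw [← hΓ] at h1 hG
  have h4 : 2 * θ * x * B ≤ Γ * S := by
    have : x * (2 * (θ * B)) ≤ x * w := mul_le_mul_of_nonneg_left h2 hx
    linarith
  rcases le_or_gt Γ 0 with hΓ0 | hΓ0
  · have h5 : Γ * S ≤ 0 := mul_nonpos_of_nonpos_of_nonneg hΓ0 hS
    have hxpos : 0 < x := by
      by_contra hcon
      push Not at hcon
      have : x = 0 := le_antisymm hcon hx
      rw [this] at hΓ
      nlinarith
    have : 0 < 2 * θ * x * B := by positivity
    linarith
  · have h5 : Γ * S ≤ Γ * ((x + q / 200) * B - 2 * (θ * B)) :=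
      mul_le_mul_of_nonneg_left h3.le hΓ0.le
    have h6 : 2 * θ * x * B ≤ (Γ * (x + q / 200 - 2 * θ)) * B := by
      calc 2 * θ * x * B ≤ Γ * ((x + q / 200) * B - 2 * (θ * B)) := h4.trans h5
        _ = _ := by ring
    have h7 : 2 * θ * x ≤ Γ * (x + q / 200 - 2 * θ) := le_of_mul_le_mul_right h6 hB
    have h8 : Γ * (q / 100) ≤ 26 * (q / 100) := mul_le_mul_of_nonneg_right hG (by linarith)
    have h9 : Γ * (x + q / 200 - 2 * θ) = Γ * (x - 2) + Γ * (q / 100) := by rw [hθ]; ring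
    have h10 : q / 200 * x ≤ q / 200 * 4.6 :=
      mul_le_mul_of_nonneg_left (by linarith) (by linarith)
    have h11 : 2 * θ * x = 2 * x - q / 200 * x := by rw [hθ]; ring
    have h12 : 2 * x - Γ * (x - 2) - q = (c + 2) * (x - (c + 1) / 2) ^ 2 := by
      rw [hΓ, hq]; ring
    have h13 : 0 ≤ (c + 2) * (x - (c + 1) / 2) ^ 2 := by
      have : 0 ≤ c + 2 := by linarith
      positivity
    linarith

lemma case2 {c x q θ B S w : ℝ} (hc4 : 4 ≤ c) (hc : c ^ 2 - 5 * c + 2 < 0)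
    (hx : 0 ≤ x) (hxc : x ≤ c) (hq : q = (c + 1) / 4 * (5 * c - c ^ 2 - 2))
    (hθ : θ = 1 - q / 400) (hB : 0 < B) (hS : 0 ≤ S)
    (h1 : x * w ≤ (c * (c + 1) - (c + 2) * x) * S) (h2 : θ * B ≤ w)
    (h3 : S < (x + q / 200) * B - 3 * (θ * B)) : False := by
  have hclt := c_lt hc4 hc
  obtain ⟨hq0, hq3⟩ := q_bounds hc4 hc
  rw [← hq] at hq0 hq3
  have hG := gam_le hc4 hc hx
  have hθ9 : 0.9 ≤ θ := by rw [hθ]; linarith
  obtain ⟨Γ, hΓ⟩ : ∃ Γ, Γ = c * (c + 1) - (c + 2) * x := ⟨_, rfl⟩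
  rw [← hΓ] at h1 hG
  have h4 : θ * x * B ≤ Γ * S := by
    have : x * (θ * B) ≤ x * w := mul_le_mul_of_nonneg_left h2 hx
    linarith
  rcases le_or_gt Γ 0 with hΓ0 | hΓ0
  · have h5 : Γ * S ≤ 0 := mul_nonpos_of_nonpos_of_nonneg hΓ0 hS
    have hxpos : 0 < x := by
      by_contra hcon
      push Not at hcon
      have : x = 0 := le_antisymm hcon hx
      rw [this] at hΓ
      nlinarith
    have : 0 < θ * x * B := by positivity
    linarith
  · have h5 : Γ * S ≤ Γ * ((x + q / 200) * B - 3 * (θ * B)) :=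
      mul_le_mul_of_nonneg_left h3.le hΓ0.le
    have h6 : θ * x * B ≤ (Γ * (x + q / 200 - 3 * θ)) * B := by
      calc θ * x * B ≤ Γ * ((x + q / 200) * B - 3 * (θ * B)) := h4.trans h5
        _ = _ := by ring
    have h7 : θ * x ≤ Γ * (x + q / 200 - 3 * θ) := le_of_mul_le_mul_right h6 hB
    have h8 : Γ * (q / 80) ≤ 26 * (q / 80) := mul_le_mul_of_nonneg_right hG (by linarith)
    have h9 : Γ * (x + q / 200 - 3 * θ) = Γ * (x - 3) + Γ * (q / 80) := by rw [hθ]; ring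
    have h10 : q / 400 * x ≤ q / 400 * 4.6 :=
      mul_le_mul_of_nonneg_left (by linarith) (by linarith)
    have h11 : θ * x = x - q / 400 * x := by rw [hθ]; ring
    -- `R(x) ≥ 2`
    have h12 : 4 * (c + 2) * (x - Γ * (x - 3) - 2)
        = (2 * (c + 2) * x - (c ^ 2 + 4 * c + 5)) ^ 2
          + (-c ^ 4 + 4 * c ^ 3 + 10 * c ^ 2 - 24 * c - 41) := by
      rw [hΓ]; ring
    have h13 : 0 ≤ -c ^ 4 + 4 * c ^ 3 + 10 * c ^ 2 - 24 * c - 41 := by
      obtain ⟨d, hd⟩ : ∃ d, c = 4 + d := ⟨c - 4, by ring⟩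
      have hd0 : 0 ≤ d := by linarith
      have hd1 : d ≤ 0.562 := by linarith
      have e : -c ^ 4 + 4 * c ^ 3 + 10 * c ^ 2 - 24 * c - 41
          = 23 - 8 * d - 38 * d ^ 2 - 12 * d ^ 3 - d ^ 4 := by rw [hd]; ring
      rw [e]
      have hd2 : d ^ 2 ≤ 0.562 ^ 2 := pow_le_pow_left₀ hd0 hd1 2
      have hd3 : d ^ 3 ≤ 0.562 ^ 3 := pow_le_pow_left₀ hd0 hd1 3
      have hd4 : d ^ 4 ≤ 0.562 ^ 4 := pow_le_pow_left₀ hd0 hd1 4
      norm_num at hd2 hd3 hd4
      linarith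
    have h14 : 0 ≤ x - Γ * (x - 3) - 2 := by
      have h15 : 0 ≤ 4 * (c + 2) * (x - Γ * (x - 3) - 2) := by
        rw [h12]; positivity
      have h16 : 0 < 4 * (c + 2) := by linarith
      exact nonneg_of_mul_nonneg_right h15 h16
    linarith

/-! ### The final contradiction -/

theorem final (A : Set ℕ) (k : ℕ) (c : ℝ) (hc4 : 4 ≤ c) (hc : c ^ 2 - 5 * c + 2 < 0)
    (β : ℕ → ℝ)
    (H1 : ∀ᶠ I : ℕ in atTop, (c + 2) * Sc A k I ≤ (c + 1) * I)
    (H2 : ∀ᶠ s : ℕ in atTop, ¬ Covered A k s → (s : ℝ) + 1 ≤ c * β s)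
    (H3 : ∀ θ : ℝ, 0 < θ → θ < 1 → ∀ᶠ s : ℕ in atTop, ¬ Covered A k s →
      ∃ b : ℕ, 1 ≤ b ∧ θ * β s ≤ (b : ℝ) - 1 ∧ θ * β s ≤ (TT A k s b).card) : False := by
  have hclt := c_lt hc4 hc
  have hcpos : 0 < c := by linarith
  obtain ⟨q, hq⟩ : ∃ q, q = (c + 1) / 4 * (5 * c - c ^ 2 - 2) := ⟨_, rfl⟩
  obtain ⟨hq0, hq3⟩ := q_bounds hc4 hc
  rw [← hq] at hq0 hq3
  obtain ⟨θ, hθ⟩ : ∃ θ, θ = 1 - q / 400 := ⟨_, rfl⟩
  have hθ9 : 0.9 ≤ θ := by rw [hθ]; linarith
  have hθ1 : θ < 1 := by rw [hθ]; linarith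
  obtain ⟨M₁, hM₁⟩ := eventually_atTop.mp H1
  obtain ⟨M₂, hM₂⟩ := eventually_atTop.mp H2
  obtain ⟨M₄, hM₄⟩ := eventually_atTop.mp (H3 θ (by linarith) hθ1)
  -- uncovered digits are unbounded
  have hinf : ∀ M : ℕ, ∃ s, M ≤ s ∧ ¬ Covered A k s := by
    intro M
    by_contra hcon
    push Not at hcon
    obtain ⟨n, hn⟩ := exists_nat_gt ((c + 2) * M + M₁)
    have hMn : M ≤ n := by
      have h1 : (M : ℝ) ≤ (c + 2) * M + M₁ := by
        have : (0 : ℝ) ≤ M := Nat.cast_nonneg _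
        have : (0 : ℝ) ≤ M₁ := Nat.cast_nonneg _
        nlinarith
      exact_mod_cast (h1.trans hn.le)
    have hM₁n : M₁ ≤ n := by
      have h1 : (M₁ : ℝ) ≤ (c + 2) * M + M₁ := by
        have : (0 : ℝ) ≤ M := Nat.cast_nonneg _
        nlinarith
      exact_mod_cast (h1.trans hn.le)
    have h1 := Sc_run A k M n hMn (fun j hj _ => hcon j hj)
    have h2 := hM₁ n hM₁n
    have h3 : (n : ℝ) ≤ Sc A k n + M := by
      have : n ≤ Sc A k n + M := by omega
      exact_mod_cast this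
    have h4 : (0 : ℝ) ≤ M₁ := Nat.cast_nonneg _
    nlinarith
  -- the step
  have step : ∀ x : ℝ, 0 ≤ x → x ≤ c →
      (∀ᶠ s : ℕ in atTop, ¬ Covered A k s → x * β s ≤ Sc A k s) →
      (∀ᶠ s : ℕ in atTop, ¬ Covered A k s → (x + q / 200) * β s ≤ Sc A k s) := by
    intro x hx hxc hK
    obtain ⟨M₃, hM₃⟩ := eventually_atTop.mp hK
    obtain ⟨M, hM⟩ : ∃ M, M = M₁ + M₂ + M₃ + M₄ := ⟨_, rfl⟩
    rw [eventually_atTop]
    refine ⟨30 * (M + 2), ?_⟩
    intro s hs hunc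
    by_contra hcon
    push Not at hcon
    have hB2 := hM₂ s (by omega) hunc
    have hsr : (30 : ℝ) * (M + 2) ≤ s := by exact_mod_cast hs
    have hMr : (0 : ℝ) ≤ M := Nat.cast_nonneg _
    have hB : 0 < β s := by
      by_contra hneg
      push Not at hneg
      nlinarith
    obtain ⟨b, hb1, hb2, hb3⟩ := hM₄ s (by omega) hunc
    have hTTpos : 0 < (TT A k s b).card := by
      have : (0 : ℝ) < (TT A k s b).card := lt_of_lt_of_le (by positivity) hb3
      exact_mod_cast this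
    obtain ⟨t, e, hte, hes, hunce, hrun, ht0, hcases⟩ := comb A k s b hunc hb1
      (card_pos.mp hTTpos)
    -- `b` is large
    have hbB : (s : ℝ) + 1 ≤ 5.1 * b := by
      have h1 : c * β s ≤ 4.562 * β s := mul_le_mul_of_nonneg_right hclt.le hB.le
      have h2 : 0.9 * β s ≤ θ * β s := mul_le_mul_of_nonneg_right hθ9 hB.le
      linarith
    -- `t` is large
    have hM1b : M₁ ≤ t + b := by
      have h1 : (M₁ : ℝ) ≤ b := by
        have : (M₁ : ℝ) ≤ M := by exact_mod_cast (by omega : M₁ ≤ M)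
        linarith
      have h2 : M₁ ≤ b := by exact_mod_cast h1
      omega
    have hSc_tb := Sc_run A k t (t + b) (by omega) (fun j hj1 hj2 => hrun j hj1 (by omega))
    have htb := hM₁ (t + b) hM1b
    have hbt : (b : ℝ) ≤ (c + 1) * t := by
      have h1 : b ≤ Sc A k (t + b) := by omega
      have h2 : (b : ℝ) ≤ Sc A k (t + b) := by exact_mod_cast h1
      have h3 : (c + 2) * (b : ℝ) ≤ (c + 2) * Sc A k (t + b) :=
        mul_le_mul_of_nonneg_left h2 (by linarith)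
      push_cast at htb
      linarith
    have ht_large : M + 1 ≤ t := by
      have h1 : (c + 1) * (t : ℝ) ≤ 5.562 * t :=
        mul_le_mul_of_nonneg_right (by linarith) (Nat.cast_nonneg _)
      have h2 : ((M : ℝ) + 1) ≤ t := by
        linarith
      exact_mod_cast h2
    have htunc : ¬ Covered A k (t - 1) := by
      rcases ht0 with h | h
      · omega
      · exact h
    obtain ⟨s₁, hs₁⟩ : ∃ s₁, t = s₁ + 1 := ⟨t - 1, by omega⟩
    have hs₁unc : ¬ Covered A k s₁ := by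
      have : t - 1 = s₁ := by omega
      rw [← this]; exact htunc
    have hSt : Sc A k t = Sc A k s₁ := by rw [hs₁]; exact Sc_succ_of_not A k s₁ hs₁unc
    have hb₁ := hM₂ s₁ (by omega) hs₁unc
    have hx₁ := hM₃ s₁ (by omega) hs₁unc
    have hSe := Sc_run A k t e (by omega) hrun
    have he1 := hM₁ e (by omega)
    obtain ⟨w, hw⟩ : ∃ w, w = e - t := ⟨_, rfl⟩
    rw [← hw] at hSe hcases
    have hew : e = t + w := by omega
    have hwr : (e : ℝ) = t + w := by exact_mod_cast hew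
    rw [hSe, hwr] at he1
    push_cast at he1
    have htr : (t : ℝ) = s₁ + 1 := by exact_mod_cast hs₁
    have hwb : b ≤ w := by omega
    have hwbr : (b : ℝ) ≤ w := by exact_mod_cast hwb
    obtain ⟨S₁, hS₁⟩ : ∃ S₁ : ℝ, S₁ = Sc A k t := ⟨_, rfl⟩
    have hS₁0 : 0 ≤ S₁ := by rw [hS₁]; exact Nat.cast_nonneg _
    have hS₁' : (Sc A k s₁ : ℝ) = S₁ := by rw [hS₁, hSt]
    rw [← hS₁] at he1
    rw [hS₁'] at hx₁
    have hwle : (w : ℝ) ≤ c * (c + 1) * β s₁ - (c + 2) * S₁ := by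
      have h1 : (c + 1) * (t : ℝ) ≤ (c + 1) * (c * β s₁) := by
        apply mul_le_mul_of_nonneg_left _ (by linarith)
        rw [htr]; exact hb₁
      linarith
    have hxw : x * w ≤ (c * (c + 1) - (c + 2) * x) * S₁ := by
      have h1 : x * (w : ℝ) ≤ x * (c * (c + 1) * β s₁ - (c + 2) * S₁) :=
        mul_le_mul_of_nonneg_left hwle hx
      have h2 : c * (c + 1) * (x * β s₁) ≤ c * (c + 1) * S₁ :=
        mul_le_mul_of_nonneg_left hx₁ (by positivity)
      linarith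
    rcases hcases with hcase | hcase
    · have h1 : (TT A k s b).card + (b : ℝ) ≤ w + 1 := by exact_mod_cast hcase
      have h2 : Sc A k e ≤ Sc A k s := Sc_mono A k hes
      rw [hSe] at h2
      have h3 : S₁ + w ≤ Sc A k s := by rw [hS₁]; exact_mod_cast h2
      exact case1 hc4 hc hx hxc hq hθ hB hS₁0 hxw (by linarith) (by linarith)
    · have h1 : S₁ + (TT A k s b).card + 2 * (b : ℝ) ≤ Sc A k s + 2 := by
        rw [hS₁]; exact_mod_cast hcase
      exact case2 hc4 hc hx hxc hq hθ hB hS₁0 hxw (by linarith) (by linarith)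
  -- iterate
  have iter : ∀ n : ℕ, (n : ℝ) * (q / 200) ≤ c + q / 200 →
      (∀ᶠ s : ℕ in atTop, ¬ Covered A k s → ((n : ℝ) * (q / 200)) * β s ≤ Sc A k s) := by
    intro n
    induction n with
    | zero =>
      intro _
      filter_upwards with s
      intro _
      simp
    | succ n ih =>
      intro hn
      push_cast at hn ⊢
      have h1 : (n : ℝ) * (q / 200) ≤ c := by linarith
      have h2 := step _ (by positivity) h1 (ih (by linarith))
      have h3 : ((n : ℝ) + 1) * (q / 200) = n * (q / 200) + q / 200 := by ring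
      rw [h3]
      exact h2
  have hδ : 0 < q / 200 := by positivity
  obtain ⟨n, hn1, hn2⟩ : ∃ n : ℕ, c < (n : ℝ) * (q / 200) ∧
      (n : ℝ) * (q / 200) ≤ c + q / 200 := by
    refine ⟨⌊c / (q / 200)⌋₊ + 1, ?_, ?_⟩
    · have := Nat.lt_floor_add_one (c / (q / 200))
      rw [div_lt_iff₀ hδ] at this
      push_cast
      exact this
    · have := Nat.floor_le (a := c / (q / 200)) (by positivity)
      rw [le_div_iff₀ hδ] at this
      push_cast
      linarith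
  obtain ⟨M₅, hM₅⟩ := eventually_atTop.mp (iter n hn2)
  obtain ⟨s, hs1, hs2⟩ := hinf (M₂ + M₅)
  have h1 := hM₂ s (by omega) hs2
  have h2 := hM₅ s (by omega) hs2
  have h3 : (Sc A k s : ℝ) ≤ s := by exact_mod_cast Sc_le A k s
  have hB : 0 < β s := by
    by_contra hneg
    push Not at hneg
    have : (0 : ℝ) ≤ s := Nat.cast_nonneg _
    nlinarith
  nlinarith

end Pool.Agent.H457Adm.Lower
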