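import Mathlib
import Pool.Agent.H457Adm.Lower5

set_option autoImplicit false
set_option linter.unusedSectionVars false

namespace Pool.Agent.H457Adm.Lower

open Finset Pool.Agent.H457Adm Filter

lemma log_small (P Q η : ℝ) (hη : 0 < η) :
    ∀ᶠ s : ℕ in atTop, P + Q * Real.logb 2 ((s : ℝ) + 2) ≤ η * s := by
  have h1 : (fun x : ℝ => Real.log x) =o[atTop] (fun x : ℝ => x) := Real.isLittleO_log_id_atTop
  have h2 : Tendsto (fun s : ℕ => (s : ℝ) + 2) atTop atTop :=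
    tendsto_atTop_add_const_right _ _ tendsto_natCast_atTop_atTop
  have h3 := h1.comp_tendsto h2
  have hlog2 : 0 < Real.log 2 := Real.log_pos (by norm_num)
  have hcoef : 0 < η * Real.log 2 / (4 * (|Q| + 1)) := by positivity
  have h4 := h3.bound hcoef
  have h5 : ∀ᶠ s : ℕ in atTop, (|P| + 2 * η) * 4 / η ≤ (s : ℝ) :=
    tendsto_natCast_atTop_atTop.eventually_ge_atTop _
  filter_upwards [h4, h5] with s hs1 hs2
  simp only [Function.comp_apply, Real.norm_eq_abs] at hs1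
  have hs0 : (0 : ℝ) ≤ s := Nat.cast_nonneg _
  rw [abs_of_pos (by linarith : (0 : ℝ) < (s : ℝ) + 2)] at hs1
  have h6 : |Real.logb 2 ((s : ℝ) + 2)| = |Real.log ((s : ℝ) + 2)| / Real.log 2 := by
    unfold Real.logb
    rw [abs_div, abs_of_pos hlog2]
  have h7 : |Real.logb 2 ((s : ℝ) + 2)| ≤ η / (4 * (|Q| + 1)) * (s + 2) := by
    rw [h6, div_le_iff₀ hlog2]
    calc |Real.log ((s : ℝ) + 2)| ≤ η * Real.log 2 / (4 * (|Q| + 1)) * (s + 2) := hs1
      _ = _ := by ring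
  have h8 : Q * Real.logb 2 ((s : ℝ) + 2) ≤ η / 4 * (s + 2) := by
    calc Q * Real.logb 2 ((s : ℝ) + 2) ≤ |Q * Real.logb 2 ((s : ℝ) + 2)| := le_abs_self _
      _ = |Q| * |Real.logb 2 ((s : ℝ) + 2)| := abs_mul _ _
      _ ≤ (|Q| + 1) * (η / (4 * (|Q| + 1)) * (s + 2)) := by
          apply mul_le_mul (by linarith) h7 (abs_nonneg _) (by positivity)
      _ = η / 4 * (s + 2) := by
          have : |Q| + 1 ≠ 0 := by positivity
          field_simp
  have h9 : P ≤ |P| := le_abs_self P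
  rw [div_le_iff₀ hη] at hs2
  nlinarith

lemma uniform_gap {a : ℕ → ℕ} {c : ℝ} (hc : 0 ≤ c) (n₀ : ℕ)
    (h : ∀ n : ℕ, n₀ ≤ n → (a (n + 1) : ℝ) - (a n : ℝ) ≤ ((n : ℝ) + 1) ^ c) :
    ∃ C₀ : ℝ, 1 ≤ C₀ ∧ ∀ n : ℕ, (a (n + 1) : ℝ) ≤ a n + C₀ * ((n : ℝ) + 1) ^ c := by
  refine ⟨1 + ∑ i ∈ range n₀, (a (i + 1) : ℝ), ?_, ?_⟩
  · have : 0 ≤ ∑ i ∈ range n₀, (a (i + 1) : ℝ) := sum_nonneg (fun i _ => Nat.cast_nonneg _)
    linarith
  · intro n
    have hS : 0 ≤ ∑ i ∈ range n₀, (a (i + 1) : ℝ) := sum_nonneg (fun i _ => Nat.cast_nonneg _)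
    have h1 : 1 ≤ ((n : ℝ) + 1) ^ c := by
      apply Real.one_le_rpow _ hc
      have : (0 : ℝ) ≤ n := Nat.cast_nonneg _
      linarith
    have h0 : (0 : ℝ) ≤ a n := Nat.cast_nonneg _
    rcases Nat.lt_or_ge n n₀ with hn | hn
    · have h2 : (a (n + 1) : ℝ) ≤ ∑ i ∈ range n₀, (a (i + 1) : ℝ) :=
        single_le_sum (f := fun i => (a (i + 1) : ℝ)) (fun i _ => Nat.cast_nonneg _)
          (mem_range.mpr hn)
      nlinarith
    · have h2 := h n hn
      nlinarith

lemma attainable_mono {c d : ℝ} (h : c ≤ d) (hc : Attainable c) : Attainable d := by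
  obtain ⟨a, h1, h2, h3, n₀, h4⟩ := hc
  refine ⟨a, h1, h2, h3, n₀, ?_⟩
  intro n hn
  refine (h4 n hn).trans ?_
  apply Real.rpow_le_rpow_of_exponent_le _ h
  have : (0 : ℝ) ≤ n := Nat.cast_nonneg _
  linarith

set_option maxHeartbeats 4000000 in
theorem no_attain (c : ℝ) (hc4 : 4 ≤ c) (hc : c < (5 + Real.sqrt 17) / 2) : ¬ Attainable c := by
  rintro ⟨a, hpos, ha, hadm, n₀, hgap₀⟩
  have hc0 : 0 ≤ c := by linarith
  have hcpos : 0 < c := by linarith
  obtain ⟨C₀, hC₀1, hgap⟩ := uniform_gap hc0 n₀ hgap₀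
  have hC₀ : 0 ≤ C₀ := by linarith
  have hC₀pos : 0 < C₀ := by linarith
  -- the exponent `c'`
  obtain ⟨c', hc'⟩ : ∃ c', c' = (c + (5 + Real.sqrt 17) / 2) / 2 := ⟨_, rfl⟩
  have hcc' : c < c' := by rw [hc']; linarith
  have hc'1 : c' < (5 + Real.sqrt 17) / 2 := by rw [hc']; linarith
  have hc'4 : 4 ≤ c' := by linarith
  have hc'0 : 0 < c' := by linarith
  have hc'q : c' ^ 2 - 5 * c' + 2 < 0 := by
    have h17 : Real.sqrt 17 ^ 2 = 17 := Real.sq_sqrt (by norm_num)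
    have h17' : 0 ≤ Real.sqrt 17 := Real.sqrt_nonneg _
    have e : c' ^ 2 - 5 * c' + 2
        = (c' - (5 + Real.sqrt 17) / 2) * (c' - (5 - Real.sqrt 17) / 2) := by
      nlinarith
    rw [e]
    apply mul_neg_of_neg_of_pos
    · linarith
    · linarith
  -- choice of `k`, and H1
  obtain ⟨K, hK0, hK⟩ := alpha ha hpos hadm hc0 hC₀ hgap
  obtain ⟨ε, hε⟩ : ∃ ε, ε = (c' + 1) / (c' + 2) - (c + 1) / (c + 2) := ⟨_, rfl⟩
  have hε0 : 0 < ε := by
    rw [hε, sub_pos, div_lt_div_iff₀ (by linarith) (by linarith)]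
    nlinarith
  obtain ⟨k₀, hk₀⟩ := exists_nat_ge (6 / ε)
  obtain ⟨k, hk⟩ : ∃ k, k = k₀ + 3 := ⟨_, rfl⟩
  have hk3 : 3 ≤ k := by omega
  have hk3r : (3 : ℝ) ≤ k := by exact_mod_cast hk3
  have hkpos : (0 : ℝ) < k := by linarith
  have hkε : 3 ≤ ε / 2 * k := by
    have h1 : (k : ℝ) = k₀ + 3 := by exact_mod_cast hk
    rw [div_le_iff₀ hε0] at hk₀
    rw [h1]
    nlinarith
  have H1 : ∀ᶠ I : ℕ in atTop, (c' + 2) * Sc (Set.range a) k I ≤ (c' + 1) * I := by
    have h5 : ∀ᶠ I : ℕ in atTop, 2 * K / ε ≤ (I : ℝ) :=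
      tendsto_natCast_atTop_atTop.eventually_ge_atTop _
    filter_upwards [h5] with I hI
    rw [div_le_iff₀ hε0] at hI
    have h1 := hK k hk3 I
    have h2 : (Sc (Set.range a) k I : ℝ) ≤ I := by exact_mod_cast Sc_le _ _ _
    have hI0 : (0 : ℝ) ≤ I := Nat.cast_nonneg _
    have h3 : 3 * (I : ℝ) ≤ ε / 2 * k * I := mul_le_mul_of_nonneg_right hkε hI0
    have h4 : K ≤ ε / 2 * I * k := by
      have h5 : K ≤ ε / 2 * I := by linarith
      have h6 : 0 ≤ ε / 2 * I := by positivity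
      nlinarith
    have h6 : (k : ℝ) * Sc (Set.range a) k I ≤ k * (I * ((c' + 1) / (c' + 2))) := by
      have e : (c' + 1) / (c' + 2) = (c + 1) / (c + 2) + ε := by rw [hε]; ring
      rw [e]
      nlinarith
    have h7 := le_of_mul_le_mul_left h6 hkpos
    have h8 : (0 : ℝ) < c' + 2 := by linarith
    calc (c' + 2) * (Sc (Set.range a) k I : ℝ)
        ≤ (c' + 2) * (I * ((c' + 1) / (c' + 2))) := mul_le_mul_of_nonneg_left h7 h8.le
      _ = (c' + 1) * I := by field_simp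
  -- the logarithmic counting function
  obtain ⟨β, hβ⟩ : ∃ β : ℕ → ℝ, β = fun s => Real.logb 2 (cnt a (2 ^ (s * k))) / k := ⟨_, rfl⟩
  -- size of `E`
  obtain ⟨E, hE⟩ : ∃ E : ℕ → ℕ, E = fun s => 2 * k * (wt s * 4 ^ k) := ⟨_, rfl⟩
  obtain ⟨K₀, hK₀⟩ : ∃ K₀ : ℝ, K₀ = 2 * k * 4 ^ k + 1 := ⟨_, rfl⟩
  have hK₀pos : 0 < K₀ := by rw [hK₀]; positivity
  have hElog : ∀ s : ℕ, Real.logb 2 ((E s : ℝ) + 1)
      ≤ Real.logb 2 K₀ + 2 * Real.logb 2 ((s : ℝ) + 2) := by
    intro s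
    have hs0 : (0 : ℝ) ≤ s := Nat.cast_nonneg _
    have h1 : (E s : ℝ) + 1 ≤ K₀ * ((s : ℝ) + 2) ^ 2 := by
      have h2 : (wt s : ℝ) ≤ ((s : ℝ) + 2) ^ 2 := by
        unfold wt; push_cast; nlinarith
      have h3 : (E s : ℝ) = 2 * k * 4 ^ k * wt s := by rw [hE]; push_cast; ring
      rw [h3, hK₀]
      have h4 : (2 : ℝ) * k * 4 ^ k * wt s ≤ 2 * k * 4 ^ k * ((s : ℝ) + 2) ^ 2 :=
        mul_le_mul_of_nonneg_left h2 (by positivity)
      have h5 : (1 : ℝ) ≤ ((s : ℝ) + 2) ^ 2 := by nlinarith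
      linarith
    calc Real.logb 2 ((E s : ℝ) + 1) ≤ Real.logb 2 (K₀ * ((s : ℝ) + 2) ^ 2) :=
          Real.logb_le_logb_of_le (by norm_num) (by positivity) h1
      _ = _ := by
          rw [Real.logb_mul hK₀pos.ne' (by positivity), Real.logb_pow]
          norm_num
  -- `a (E s) ≤ 2 ^ (s k - 1)` eventually
  obtain ⟨C, hC⟩ : ∃ C, C = (a 0 : ℝ) + C₀ := ⟨_, rfl⟩
  have hCpos : 0 < C := by
    rw [hC]
    have : (0 : ℝ) ≤ a 0 := Nat.cast_nonneg _
    linarith
  have hlarge : ∀ᶠ s : ℕ in atTop, a (E s) ≤ 2 ^ (s * k - 1) := by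
    have h1 := log_small (Real.logb 2 C + (c + 1) * Real.logb 2 K₀ + 1) ((c + 1) * 2) 1
      one_pos
    filter_upwards [h1, eventually_ge_atTop 1] with s hs hs1
    have hg := growth hc0 hC₀ hgap (E s)
    rw [← hC] at hg
    have hapos : (0 : ℝ) < a (E s) := by exact_mod_cast (hpos (E s))
    have h2 := Real.logb_le_logb_of_le (b := 2) (by norm_num) hapos hg
    rw [Real.logb_mul hCpos.ne' (by positivity),
      Real.logb_rpow_eq_mul_logb_of_pos (by positivity)] at h2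
    have h3 : (c + 1) * Real.logb 2 ((E s : ℝ) + 1)
        ≤ (c + 1) * (Real.logb 2 K₀ + 2 * Real.logb 2 ((s : ℝ) + 2)) :=
      mul_le_mul_of_nonneg_left (hElog s) (by linarith)
    have hs0 : (1 : ℝ) ≤ s := by exact_mod_cast hs1
    have h4 : (s : ℝ) ≤ s * k := by nlinarith
    have hsk1 : 1 ≤ s * k := Nat.mul_pos hs1 (by omega)
    have h5 : Real.logb 2 (a (E s)) ≤ ((s * k - 1 : ℕ) : ℝ) := by
      rw [Nat.cast_sub hsk1]
      push_cast
      linarith
    rw [Real.logb_le_iff_le_rpow (by norm_num) hapos, Real.rpow_natCast] at h5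
    exact_mod_cast h5
  -- `cnt ≥ 1` eventually
  have hcnt1 : ∀ᶠ s : ℕ in atTop, 1 ≤ cnt a (2 ^ (s * k)) := by
    filter_upwards [eventually_ge_atTop (a 0)] with s hs
    have h1 : a 0 < 2 ^ (s * k) := by
      calc a 0 ≤ s := hs
        _ ≤ s * k := Nat.le_mul_of_pos_right _ (by omega)
        _ < 2 ^ (s * k) := Nat.lt_two_pow_self
    exact (lt_cnt ha _ 0).mpr h1
  -- H2
  have H2 : ∀ᶠ s : ℕ in atTop, ¬ Covered (Set.range a) k s → (s : ℝ) + 1 ≤ c' * β s := by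
    obtain ⟨η, hη⟩ : ∃ η, η = (c' - c) / (2 * c') := ⟨_, rfl⟩
    have hη0 : 0 < η := by rw [hη]; apply div_pos <;> linarith
    have h1 := log_small (Real.logb 2 C₀ + (c + 1) * Real.logb 2 K₀) ((c + 1) * 2) η hη0
    have h5 : ∀ᶠ s : ℕ in atTop, 2 * c / (c' - c) ≤ (s : ℝ) :=
      tendsto_natCast_atTop_atTop.eventually_ge_atTop _
    filter_upwards [h1, h5, hlarge, hcnt1, eventually_ge_atTop 1] with s hs1 hs2 hs3 hs4 hs5
    intro hunc
    obtain ⟨n, hn⟩ : ∃ n, n = cnt a (2 ^ (s * k)) := ⟨_, rfl⟩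
    have hE' : E s = 2 * k * (wt s * 4 ^ k) := by rw [hE]
    have hb := beta ha hc0 hC₀ hgap k s (by omega) hs5 hunc (E s) hE' hs3
    rw [← hn] at hb hs4
    have hn1 : (1 : ℝ) ≤ n := by exact_mod_cast hs4
    have hnpos : (0 : ℝ) < n := by linarith
    have hE0 : (0 : ℝ) ≤ E s := Nat.cast_nonneg _
    have h2 : ((n : ℝ) + E s) ^ c ≤ (n * ((E s : ℝ) + 1)) ^ c := by
      apply Real.rpow_le_rpow (by positivity) _ hc0
      nlinarith
    have h3 : (2 : ℝ) ^ (s * k) ≤ ((E s : ℝ) + 1) * C₀ * (n * ((E s : ℝ) + 1)) ^ c :=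
      hb.trans (mul_le_mul_of_nonneg_left h2 (by positivity))
    have h4 := Real.logb_le_logb_of_le (b := 2) (by norm_num) (by positivity) h3
    rw [Real.logb_pow, Real.logb_self_eq_one (by norm_num),
      Real.logb_mul (by positivity) (by positivity), Real.logb_mul (by positivity) (by positivity),
      Real.logb_rpow_eq_mul_logb_of_pos (by positivity),
      Real.logb_mul (by positivity) (by positivity)] at h4
    have h6 : Real.logb 2 n = k * β s := by
      rw [hβ, hn]; field_simp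
    rw [h6] at h4
    have h7 : (c + 1) * Real.logb 2 ((E s : ℝ) + 1)
        ≤ (c + 1) * (Real.logb 2 K₀ + 2 * Real.logb 2 ((s : ℝ) + 2)) :=
      mul_le_mul_of_nonneg_left (hElog s) (by linarith)
    push_cast at h4
    have h8 : (s : ℝ) * k ≤ η * s + c * (k * β s) := by linarith
    have hs0 : (0 : ℝ) ≤ s := Nat.cast_nonneg _
    have h9 : η * s ≤ k * (η * s) := by
      have : 0 ≤ η * s := by positivity
      nlinarith
    have h10 : (k : ℝ) * s ≤ k * (η * s + c * β s) := by linarith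
    have h11 := le_of_mul_le_mul_left h10 hkpos
    -- `(1 - η) s ≤ c β`, so `c' β ≥ (c'/c)(1-η) s = s + (c'-c)/(2c) s`
    have h12 : c' * (1 - η) * s ≤ c * (c' * β s) := by nlinarith
    have h13 : c' * (1 - η) = c + (c' - c) / 2 := by
      rw [hη]; field_simp; ring
    rw [h13] at h12
    rw [div_le_iff₀ (by linarith)] at hs2
    have h14 : c * ((s : ℝ) + 1) ≤ c * (c' * β s) := by nlinarith
    exact le_of_mul_le_mul_left h14 hcpos
  -- H3
  have H3 : ∀ θ : ℝ, 0 < θ → θ < 1 → ∀ᶠ s : ℕ in atTop, ¬ Covered (Set.range a) k s →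
      ∃ b : ℕ, 1 ≤ b ∧ θ * β s ≤ (b : ℝ) - 1 ∧
        θ * β s ≤ (TT (Set.range a) k s b).card := by
    intro θ hθ0 hθ1
    have hη0 : 0 < (1 - θ) / c' := div_pos (by linarith) hc'0
    have h1 := log_small (Real.logb 2 (4 * k) + 4) 3 ((1 - θ) / c') hη0
    filter_upwards [h1, H2, hcnt1, eventually_ge_atTop 1] with s hs1 hs2 hs3 hs4
    intro hunc
    have hβs := hs2 hunc
    obtain ⟨n, hn⟩ : ∃ n, n = cnt a (2 ^ (s * k)) := ⟨_, rfl⟩
    rw [← hn] at hs3
    have hn1 : (1 : ℝ) ≤ n := by exact_mod_cast hs3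
    have hnpos : (0 : ℝ) < n := by linarith
    have hs4r : (1 : ℝ) ≤ s := by exact_mod_cast hs4
    have hβpos : 0 < β s := by
      by_contra hneg
      push Not at hneg
      nlinarith
    have h6 : Real.logb 2 n = k * β s := by
      rw [hβ, hn]; field_simp
    obtain ⟨D, hD⟩ : ∃ D, D = 4 * (s * k) * wt s := ⟨_, rfl⟩
    have hDpos : 0 < D := by
      rw [hD]
      exact Nat.mul_pos (Nat.mul_pos (by norm_num) (Nat.mul_pos hs4 (by omega))) (wt_pos s)
    have hDposr : (0 : ℝ) < D := by exact_mod_cast hDpos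
    have hDlog : Real.logb 2 D ≤ Real.logb 2 (4 * k) + 3 * Real.logb 2 ((s : ℝ) + 2) := by
      have h2 : (D : ℝ) ≤ (4 * k) * ((s : ℝ) + 2) ^ 3 := by
        have h3 : (wt s : ℝ) ≤ ((s : ℝ) + 2) ^ 2 := by
          unfold wt; push_cast; nlinarith
        have h4 : (D : ℝ) = 4 * k * (s * wt s) := by rw [hD]; push_cast; ring
        rw [h4]
        apply mul_le_mul_of_nonneg_left _ (by positivity)
        calc (s : ℝ) * wt s ≤ (s + 2) * (s + 2) ^ 2 := by
              apply mul_le_mul (by linarith) h3 (Nat.cast_nonneg _) (by linarith)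
          _ = (s + 2) ^ 3 := by ring
      calc Real.logb 2 D ≤ Real.logb 2 ((4 * k) * ((s : ℝ) + 2) ^ 3) :=
            Real.logb_le_logb_of_le (by norm_num) hDposr h2
        _ = _ := by
            rw [Real.logb_mul (by positivity) (by positivity), Real.logb_pow]
            norm_num
    -- the key slack
    have hslack : Real.logb 2 D + 4 ≤ (1 - θ) * β s := by
      have h2 : (1 - θ) / c' * s ≤ (1 - θ) / c' * (c' * β s) :=
        mul_le_mul_of_nonneg_left (by linarith) hη0.le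
      have h3 : (1 - θ) / c' * (c' * β s) = (1 - θ) * β s := by field_simp
      linarith
    have hDlog0 : 0 ≤ Real.logb 2 D := by
      apply Real.logb_nonneg (by norm_num)
      exact_mod_cast hDpos
    have hDn : D ≤ n := by
      have h2 : Real.logb 2 D ≤ Real.logb 2 n := by
        rw [h6]
        nlinarith
      have h3 := (Real.logb_le_logb (b := 2) (by norm_num) hDposr hnpos).mp h2
      exact_mod_cast h3
    obtain ⟨h, hh⟩ : ∃ h, h = Nat.log 2 (n / D) := ⟨_, rfl⟩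
    have hnD : n / D ≠ 0 := by
      have : 1 ≤ n / D := (Nat.one_le_div_iff hDpos).mpr hDn
      omega
    have hp1 : 2 ^ h ≤ n / D := by rw [hh]; exact Nat.pow_log_le_self 2 hnD
    have hp2 : n / D < 2 ^ (h + 1) := by
      rw [hh]; exact Nat.lt_pow_succ_log_self (by norm_num) _
    have hp1' : 4 * (s * k) * (wt s * 2 ^ h) ≤ n := by
      calc 4 * (s * k) * (wt s * 2 ^ h) = D * 2 ^ h := by rw [hD]; ring
        _ ≤ D * (n / D) := Nat.mul_le_mul_left _ hp1
        _ ≤ n := Nat.mul_div_le _ _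
    have hp2' : n < D * 2 ^ (h + 1) := by
      rw [mul_comm]
      exact (Nat.div_lt_iff_lt_mul hDpos).mp hp2
    have hp2r : (n : ℝ) ≤ D * 2 ^ (h + 1) := by exact_mod_cast hp2'.le
    have hlog2 := Real.logb_le_logb_of_le (b := 2) (by norm_num) hnpos hp2r
    rw [Real.logb_mul hDposr.ne' (by positivity), Real.logb_pow,
      Real.logb_self_eq_one (by norm_num), h6] at hlog2
    push_cast at hlog2
    obtain ⟨g, hg⟩ : ∃ g, g = h / k := ⟨_, rfl⟩
    have hgk : h < k * (g + 1) := by rw [hg]; exact Nat.lt_mul_div_succ _ (by omega)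
    have hgkr : (h : ℝ) < k * (g + 1) := by exact_mod_cast hgk
    have hg2 : (k : ℝ) * β s ≤ k * (Real.logb 2 D + g + 2) := by
      have h3 : Real.logb 2 D ≤ k * Real.logb 2 D := by nlinarith
      nlinarith
    have hg3 := le_of_mul_le_mul_left hg2 hkpos
    have hg4 : θ * β s + 2 ≤ g := by linarith
    have hθβ : 0 < θ * β s := by positivity
    have hg5 : 2 ≤ g := by
      have : (2 : ℝ) ≤ g := by linarith
      exact_mod_cast this
    obtain ⟨b, hb⟩ : ∃ b, b = g - 1 := ⟨_, rfl⟩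
    have hbg : b + 1 = g := by omega
    have hbgr : (b : ℝ) + 1 = g := by exact_mod_cast hbg
    have hb1 : 1 ≤ b := by omega
    refine ⟨b, hb1, by linarith, ?_⟩
    have hgam := gamma ha k s h b (by omega) hunc (by rw [← hn]; exact hp1') (by omega) hb1
    rw [← hn] at hgam
    have hgamr : (n : ℝ) ≤ 2 ^ (k * (TT (Set.range a) k s b).card + 1) := by exact_mod_cast hgam
    have hlog3 := Real.logb_le_logb_of_le (b := 2) (by norm_num) hnpos hgamr
    rw [Real.logb_pow, Real.logb_self_eq_one (by norm_num), h6] at hlog3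
    push_cast at hlog3
    have h14 : (k : ℝ) * β s ≤ k * ((TT (Set.range a) k s b).card + 1) := by linarith
    have h15 := le_of_mul_le_mul_left h14 hkpos
    linarith
  exact final (Set.range a) k c' hc'4 hc'q β H1 H2 H3

/-- The lower bound for the attainable exponents. -/
theorem lower (c : ℝ) (h : Attainable c) : (5 + Real.sqrt 17) / 2 ≤ c := by
  by_contra hcon
  push Not at hcon
  have h4 : 4 < (5 + Real.sqrt 17) / 2 := by
    have : (3 : ℝ) < Real.sqrt 17 := by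
      rw [Real.lt_sqrt (by norm_num)]; norm_num
    linarith
  exact no_attain (max c 4) (le_max_right _ _) (max_lt hcon h4)
    (attainable_mono (le_max_left _ _) h)

end Pool.Agent.H457Adm.Lower
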