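import Mathlib
import Pool.Agent.H457Adm.Defs

set_option autoImplicit false
set_option linter.unusedSectionVars false

namespace Pool.Agent.H457Adm.Upper

open Finset Pool.Agent.H457Adm

section construction

variable (p : ℕ → ℕ)

/-- offsets -/
def b : ℕ → ℕ
  | 0 => 1
  | j + 1 => b j * (1 + 16 * p j ^ 4)

lemma b_succ (j : ℕ) : b p (j + 1) = b p j * (1 + 16 * p j ^ 4) := rfl

/-- moduli -/
def M (j : ℕ) : ℕ := 8 * p j * b p j

/-- dense part -/
def dense (j : ℕ) : Finset ℕ := (Icc 1 (p j)).image (fun i => b p j + M p j * i)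

/-- fillers -/
def filler (j : ℕ) : Finset ℕ := (Ico 1 (p j)).image (fun i => b p j + M p j * (2 * p j ^ 2 * i))

/-- heavy part -/
def heavy (j : ℕ) : Finset ℕ := (range (p j ^ 2)).image (fun i => b p (j + 1) + M p j * i)

/-- light part -/
def light (j : ℕ) : Finset ℕ := dense p j ∪ filler p j

/-- all elements of the stages before `j` -/
def E : ℕ → Finset ℕ
  | 0 => ∅
  | j + 1 => E j ∪ (light p j ∪ heavy p j)

lemma E_succ (j : ℕ) : E p (j + 1) = E p j ∪ (light p j ∪ heavy p j) := rfl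

lemma b_pos (j : ℕ) : 0 < b p j := by
  induction j with
  | zero => simp [b]
  | succ j ih => rw [b_succ]; positivity

variable (hp : ∀ j, 0 < p j)

include hp

lemma M_pos (j : ℕ) : 0 < M p j := by
  unfold M
  have := hp j
  have := b_pos p j
  positivity

lemma mem_dense {j x : ℕ} : x ∈ dense p j ↔ ∃ i, (1 ≤ i ∧ i ≤ p j) ∧ b p j + M p j * i = x := by
  simp [dense]

lemma mem_filler {j x : ℕ} : x ∈ filler p j ↔
    ∃ i, (1 ≤ i ∧ i < p j) ∧ b p j + M p j * (2 * p j ^ 2 * i) = x := by
  simp [filler]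

lemma mem_heavy {j x : ℕ} : x ∈ heavy p j ↔
    ∃ i, i < p j ^ 2 ∧ b p (j + 1) + M p j * i = x := by
  simp [heavy]

lemma light_bounds {j x : ℕ} (hx : x ∈ light p j) : b p j + M p j ≤ x ∧ x < b p (j + 1) := by
  have hpj := hp j
  have hb := b_pos p j
  have hM := M_pos p hp j
  unfold light at hx
  rw [mem_union, mem_dense p hp, mem_filler p hp] at hx
  rcases hx with ⟨i, ⟨h1, h2⟩, rfl⟩ | ⟨i, ⟨h1, h2⟩, rfl⟩
  · constructor
    · nlinarith
    · rw [b_succ]
      have h3 : M p j * i ≤ M p j * p j := Nat.mul_le_mul_left _ h2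
      have h4 : M p j * p j = b p j * (8 * p j ^ 2) := by unfold M; ring
      have h5 : p j ^ 2 ≤ p j ^ 4 := Nat.pow_le_pow_right hpj (by norm_num)
      have h6 : 0 < p j ^ 4 := by positivity
      have h7 : b p j * (8 * p j ^ 2) < b p j * (16 * p j ^ 4) :=
        Nat.mul_lt_mul_of_pos_left (by omega) hb
      calc b p j + M p j * i ≤ b p j + b p j * (8 * p j ^ 2) := by omega
        _ < b p j + b p j * (16 * p j ^ 4) := by omega
        _ = b p j * (1 + 16 * p j ^ 4) := by ring
  · constructor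
    · have : 1 ≤ 2 * p j ^ 2 * i := by
        have : 0 < p j ^ 2 * i := by positivity
        nlinarith
      nlinarith
    · rw [b_succ]
      have h3 : 2 * p j ^ 2 * i + 2 * p j ^ 2 ≤ 2 * p j ^ 3 := by
        have : i + 1 ≤ p j := h2
        calc 2 * p j ^ 2 * i + 2 * p j ^ 2 = 2 * p j ^ 2 * (i + 1) := by ring
          _ ≤ 2 * p j ^ 2 * p j := Nat.mul_le_mul_left _ this
          _ = 2 * p j ^ 3 := by ring
      have h4 : 0 < 2 * p j ^ 2 := by positivity
      have h5 : M p j * (2 * p j ^ 2 * i) < M p j * (2 * p j ^ 3) :=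
        Nat.mul_lt_mul_of_pos_left (by omega) hM
      have h6 : M p j * (2 * p j ^ 3) = b p j * (16 * p j ^ 4) := by unfold M; ring
      calc b p j + M p j * (2 * p j ^ 2 * i) < b p j + b p j * (16 * p j ^ 4) := by omega
        _ = b p j * (1 + 16 * p j ^ 4) := by ring

lemma heavy_bounds {j x : ℕ} (hx : x ∈ heavy p j) :
    b p (j + 1) ≤ x ∧ x < b p (j + 1) + M p j * p j ^ 2 := by
  rw [mem_heavy p hp] at hx
  obtain ⟨i, h1, rfl⟩ := hx
  refine ⟨by omega, ?_⟩
  have := Nat.mul_lt_mul_of_pos_left h1 (M_pos p hp j)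
  omega

lemma light_cong {j x : ℕ} (hx : x ∈ light p j) : ∃ i, x = b p j + M p j * i := by
  unfold light at hx
  rw [mem_union, mem_dense p hp, mem_filler p hp] at hx
  rcases hx with ⟨i, -, rfl⟩ | ⟨i, -, rfl⟩
  · exact ⟨_, rfl⟩
  · exact ⟨_, rfl⟩

lemma b_succ_cong (j : ℕ) : b p (j + 1) = b p j + M p j * (2 * p j ^ 3) := by
  rw [b_succ]; unfold M; ring

lemma heavy_cong {j x : ℕ} (hx : x ∈ heavy p j) : ∃ i, x = b p j + M p j * i := by
  rw [mem_heavy p hp] at hx
  obtain ⟨i, -, rfl⟩ := hx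
  exact ⟨2 * p j ^ 3 + i, by rw [b_succ_cong p hp j]; ring⟩

variable (hp2 : ∀ j, 4 * p j ^ 2 ≤ p (j + 1))

include hp2

lemma b_mono_aux (j : ℕ) : b p j + M p j ≤ b p (j + 1) := by
  rw [b_succ]
  unfold M
  have h1 : p j ≤ p j ^ 4 := Nat.le_self_pow (by norm_num) _
  have h2 : 8 * p j * b p j ≤ b p j * (16 * p j ^ 4) := by
    calc 8 * p j * b p j = b p j * (8 * p j) := by ring
      _ ≤ b p j * (16 * p j ^ 4) := Nat.mul_le_mul_left _ (by omega)
  calc b p j + 8 * p j * b p j ≤ b p j + b p j * (16 * p j ^ 4) := by omega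
    _ = b p j * (1 + 16 * p j ^ 4) := by ring

lemma heavy_lt {j x : ℕ} (hx : x ∈ heavy p j) : x < b p (j + 1) + M p (j + 1) := by
  have h := (heavy_bounds p hp hx).2
  have h1 : M p j * p j ^ 2 ≤ M p (j + 1) := by
    unfold M
    have h2 : p j ^ 2 ≤ p (j + 1) := by have := hp2 j; omega
    have h3 : 8 * p j * b p j ≤ 8 * b p (j + 1) := by
      have := b_mono_aux p hp hp2 j
      unfold M at this
      have := b_pos p (j + 1)
      omega
    calc 8 * p j * b p j * p j ^ 2 ≤ 8 * b p (j + 1) * p (j + 1) := Nat.mul_le_mul h3 h2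
      _ = 8 * p (j + 1) * b p (j + 1) := by ring
  omega

lemma E_lt (j : ℕ) : ∀ x ∈ E p j, x < b p j + M p j := by
  induction j with
  | zero => intro x hx; simp [E] at hx
  | succ j ih =>
    intro x hx
    rw [E_succ, mem_union, mem_union] at hx
    have hM := M_pos p hp (j + 1)
    rcases hx with hx | hx | hx
    · have h1 := ih x hx
      have h2 := b_mono_aux p hp hp2 j
      omega
    · have h1 := (light_bounds p hp hx).2
      omega
    · exact heavy_lt p hp hp2 hx

lemma disj1 (j : ℕ) : Disjoint (E p j) (light p j ∪ heavy p j) := by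
  rw [Finset.disjoint_left]
  intro x hx hx2
  have h1 := E_lt p hp hp2 j x hx
  rw [mem_union] at hx2
  rcases hx2 with h | h
  · have := (light_bounds p hp h).1; omega
  · have := (heavy_bounds p hp h).1
    have := b_mono_aux p hp hp2 j
    omega

lemma disj2 (j : ℕ) : Disjoint (light p j) (heavy p j) := by
  rw [Finset.disjoint_left]
  intro x hx hx2
  have h1 := (light_bounds p hp hx).2
  have h2 := (heavy_bounds p hp hx2).1
  omega

lemma card_light (j : ℕ) : (light p j).card ≤ 2 * p j := by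
  unfold light dense filler
  calc _ ≤ _ := card_union_le _ _
    _ ≤ (Icc 1 (p j)).card + (Ico 1 (p j)).card := add_le_add card_image_le card_image_le
    _ ≤ 2 * p j := by simp; omega

lemma card_heavy (j : ℕ) : (heavy p j).card = p j ^ 2 := by
  unfold heavy
  rw [card_image_of_injective, card_range]
  intro x y hxy
  have := M_pos p hp j
  simp only [add_right_inj] at hxy
  exact Nat.eq_of_mul_eq_mul_left this hxy

lemma card_E (j : ℕ) : (E p j).card ≤ p j := by
  induction j with
  | zero => simp [E]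
  | succ j ih =>
    rw [E_succ]
    have h1 := card_union_le (E p j) (light p j ∪ heavy p j)
    have h2 := card_union_le (light p j) (heavy p j)
    have h3 := card_light p hp hp2 j
    have h4 := card_heavy p hp hp2 j
    have h5 := hp2 j
    have h6 : p j ≤ p j ^ 2 := Nat.le_self_pow (by norm_num) _
    omega

/-- The main divisibility lemma. -/
lemma key (e : ℕ → ℤ) (he : ∀ n, |e n| ≤ 1) (j : ℕ) : ∀ s t : ℤ,
    ((b p j : ℤ) * (8 * p j)) ∣ s - b p j * t →
    (∑ x ∈ E p j, e x * x) + s = 0 →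
    (8 * p j : ℤ) ∣ (∑ x ∈ E p j, e x) + t := by
  induction j with
  | zero =>
    intro s t h1 h2
    have hE : E p 0 = ∅ := rfl
    rw [hE] at h2 ⊢
    simp only [sum_empty, zero_add] at h2 ⊢
    rw [h2] at h1
    have hb : b p 0 = 1 := rfl
    rw [hb] at h1
    simpa using h1
  | succ j ih =>
    intro s t h1 h2
    have hpj := hp j
    have hbj := b_pos p j
    have hb0 : (b p (j + 1) : ℤ) ≠ 0 := by
      exact_mod_cast (b_pos p (j + 1)).ne'
    have hbpos : (0 : ℤ) < b p (j + 1) := by exact_mod_cast b_pos p (j + 1)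
    obtain ⟨v, hv⟩ : (b p (j + 1) : ℤ) ∣ s := by
      have h3 : (b p (j + 1) : ℤ) ∣ s - b p (j + 1) * t := dvd_trans (Dvd.intro _ rfl) h1
      have h4 : (b p (j + 1) : ℤ) ∣ b p (j + 1) * t := Dvd.intro _ rfl
      have := dvd_add h3 h4
      simpa using this
    subst hv
    have hvt : (8 * p (j + 1) : ℤ) ∣ v - t := by
      have : (b p (j + 1) : ℤ) * v - b p (j + 1) * t = b p (j + 1) * (v - t) := by ring
      rw [this] at h1
      exact (mul_dvd_mul_iff_left hb0).mp h1
    have hsplit : ∀ f : ℕ → ℤ, ∑ x ∈ E p (j + 1), f x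
        = ∑ x ∈ E p j, f x + (∑ x ∈ light p j, f x + ∑ x ∈ heavy p j, f x) := by
      intro f
      rw [E_succ, sum_union (disj1 p hp hp2 j), sum_union (disj2 p hp hp2 j)]
    have hIH := ih (∑ x ∈ light p j, e x * x + ∑ x ∈ heavy p j, e x * x + b p (j + 1) * v)
        (∑ x ∈ light p j, e x + ∑ x ∈ heavy p j, e x + v) ?_ ?_
    · -- bound
      have habs : ∀ F : Finset ℕ, |∑ x ∈ F, e x| ≤ F.card := by
        intro F
        calc |∑ x ∈ F, e x| ≤ ∑ x ∈ F, |e x| := abs_sum_le_sum_abs _ _
          _ ≤ ∑ x ∈ F, (1 : ℤ) := sum_le_sum (fun n _ => he n)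
          _ = F.card := by simp
      have hsumb : ∀ F : Finset ℕ, (∀ x ∈ F, x ≤ b p (j + 1)) →
          |∑ x ∈ F, e x * (x : ℤ)| ≤ F.card * b p (j + 1) := by
        intro F hF
        calc |∑ x ∈ F, e x * (x : ℤ)| ≤ ∑ x ∈ F, |e x * (x : ℤ)| := abs_sum_le_sum_abs _ _
          _ ≤ ∑ x ∈ F, (b p (j + 1) : ℤ) := by
              apply sum_le_sum
              intro x hx
              rw [abs_mul, abs_of_nonneg (by positivity : (0 : ℤ) ≤ (x : ℤ))]
              calc |e x| * (x : ℤ) ≤ 1 * (x : ℤ) :=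
                    mul_le_mul_of_nonneg_right (he x) (by positivity)
                _ ≤ b p (j + 1) := by rw [one_mul]; exact_mod_cast hF x hx
          _ = F.card * b p (j + 1) := by simp
      have hE1 : |∑ x ∈ E p j, e x * (x : ℤ)| ≤ (p j : ℤ) * b p (j + 1) := by
        refine le_trans (hsumb _ ?_) ?_
        · intro x hx
          have h1 := E_lt p hp hp2 j x hx
          have h2 := b_mono_aux p hp hp2 j
          omega
        · have := card_E p hp hp2 j
          exact mul_le_mul_of_nonneg_right (by exact_mod_cast this) hbpos.le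
      have hL1 : |∑ x ∈ light p j, e x * (x : ℤ)| ≤ (2 * p j : ℤ) * b p (j + 1) := by
        refine le_trans (hsumb _ ?_) ?_
        · intro x hx
          exact (light_bounds p hp hx).2.le
        · have := card_light p hp hp2 j
          exact mul_le_mul_of_nonneg_right (by exact_mod_cast this) hbpos.le
      have hH1 : |∑ x ∈ heavy p j, e x * ((x : ℤ) - b p (j + 1))| ≤ (p j : ℤ) * b p (j + 1) := by
        calc |∑ x ∈ heavy p j, e x * ((x : ℤ) - b p (j + 1))|
            ≤ ∑ x ∈ heavy p j, |e x * ((x : ℤ) - b p (j + 1))| := abs_sum_le_sum_abs _ _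
          _ ≤ ∑ x ∈ heavy p j, ((M p j * p j ^ 2 : ℕ) : ℤ) := by
              apply sum_le_sum
              intro x hx
              obtain ⟨h1, h2⟩ := heavy_bounds p hp hx
              have h3 : (0 : ℤ) ≤ (x : ℤ) - b p (j + 1) := by
                have : (b p (j + 1) : ℤ) ≤ x := by exact_mod_cast h1
                linarith
              rw [abs_mul, abs_of_nonneg h3]
              have h4 : (x : ℤ) - b p (j + 1) ≤ ((M p j * p j ^ 2 : ℕ) : ℤ) := by
                have : (x : ℤ) < ((b p (j + 1) + M p j * p j ^ 2 : ℕ) : ℤ) := by exact_mod_cast h2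
                push_cast at this ⊢
                linarith
              calc |e x| * ((x : ℤ) - b p (j + 1)) ≤ 1 * ((x : ℤ) - b p (j + 1)) :=
                    mul_le_mul_of_nonneg_right (he x) h3
                _ ≤ _ := by rw [one_mul]; exact h4
          _ = ((p j ^ 2 * (M p j * p j ^ 2) : ℕ) : ℤ) := by
              rw [sum_const, card_heavy p hp hp2 j]; simp
          _ ≤ (p j : ℤ) * b p (j + 1) := by
              have : p j ^ 2 * (M p j * p j ^ 2) ≤ p j * b p (j + 1) := by
                rw [b_succ]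
                unfold M
                calc p j ^ 2 * (8 * p j * b p j * p j ^ 2) = p j * (b p j * (8 * p j ^ 4)) := by
                      ring
                  _ ≤ p j * (b p j * (1 + 16 * p j ^ 4)) := by
                      apply Nat.mul_le_mul_left
                      apply Nat.mul_le_mul_left
                      omega
              exact_mod_cast this
      have hHv : |∑ x ∈ heavy p j, e x + v| ≤ 4 * p j := by
        have h7 : (b p (j + 1) : ℤ) * (∑ x ∈ heavy p j, e x + v)
            = -(∑ x ∈ E p j, e x * (x : ℤ) + ∑ x ∈ light p j, e x * (x : ℤ)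
              + ∑ x ∈ heavy p j, e x * ((x : ℤ) - b p (j + 1))) := by
          have h8 := h2
          rw [hsplit] at h8
          have h9 : ∑ x ∈ heavy p j, e x * ((x : ℤ) - b p (j + 1))
              = ∑ x ∈ heavy p j, e x * (x : ℤ) - b p (j + 1) * ∑ x ∈ heavy p j, e x := by
            rw [mul_sum, ← sum_sub_distrib]
            apply sum_congr rfl
            intro x _; ring
          rw [h9]
          linarith
        have h10 : (b p (j + 1) : ℤ) * |∑ x ∈ heavy p j, e x + v| ≤ b p (j + 1) * (4 * p j) := by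
          have : |(b p (j + 1) : ℤ) * (∑ x ∈ heavy p j, e x + v)|
              = b p (j + 1) * |∑ x ∈ heavy p j, e x + v| := by
            rw [abs_mul, abs_of_pos hbpos]
          rw [← this, h7, abs_neg]
          have h11 := abs_add_le (∑ x ∈ E p j, e x * (x : ℤ) + ∑ x ∈ light p j, e x * (x : ℤ))
            (∑ x ∈ heavy p j, e x * ((x : ℤ) - b p (j + 1)))
          have h12 := abs_add_le (∑ x ∈ E p j, e x * (x : ℤ)) (∑ x ∈ light p j, e x * (x : ℤ))
          nlinarith
        exact le_of_mul_le_mul_left h10 hbpos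
      have hzero : (∑ x ∈ E p (j + 1), e x) + v = 0 := by
        have h9 : (8 * p j : ℤ) ∣ (∑ x ∈ E p (j + 1), e x) + v := by
          rw [hsplit, add_assoc]; exact hIH
        apply Int.eq_zero_of_abs_lt_dvd h9
        rw [hsplit]
        have h13 := habs (E p j)
        have h14 := habs (light p j)
        have h15 : ((E p j).card : ℤ) ≤ p j := by exact_mod_cast card_E p hp hp2 j
        have h16 : ((light p j).card : ℤ) ≤ 2 * p j := by exact_mod_cast card_light p hp hp2 j
        have h17 : (0 : ℤ) < p j := by exact_mod_cast hpj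
        rw [abs_le] at h13 h14 hHv
        rw [abs_lt]
        constructor <;> linarith
      have : (∑ x ∈ E p (j + 1), e x) + t = -(v - t) := by linarith
      rw [this]
      exact (dvd_neg).mpr hvt
    · -- congruence
      have hc : ∀ F : Finset ℕ, (∀ x ∈ F, ∃ i, x = b p j + M p j * i) →
          ((b p j : ℤ) * (8 * p j)) ∣ ∑ x ∈ F, e x * (x : ℤ) - b p j * ∑ x ∈ F, e x := by
        intro F hF
        rw [mul_sum, ← sum_sub_distrib]
        apply dvd_sum
        intro x hx
        obtain ⟨i, rfl⟩ := hF x hx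
        refine ⟨e (b p j + M p j * i) * i, ?_⟩
        push_cast
        unfold M
        push_cast
        ring
      have hL := hc (light p j) (fun x hx => light_cong p hp hx)
      have hH := hc (heavy p j) (fun x hx => heavy_cong p hp hx)
      have hV : ((b p j : ℤ) * (8 * p j)) ∣ (b p (j + 1) : ℤ) * v - b p j * v := by
        refine ⟨2 * p j ^ 3 * v, ?_⟩
        rw [b_succ]
        push_cast
        ring
      have h20 := dvd_add (dvd_add hL hH) hV
      have h21 : ∑ x ∈ light p j, e x * (x : ℤ) + ∑ x ∈ heavy p j, e x * (x : ℤ)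
          + b p (j + 1) * v - b p j * (∑ x ∈ light p j, e x + ∑ x ∈ heavy p j, e x + v)
          = (∑ x ∈ light p j, e x * (x : ℤ) - b p j * ∑ x ∈ light p j, e x
            + (∑ x ∈ heavy p j, e x * (x : ℤ) - b p j * ∑ x ∈ heavy p j, e x))
            + ((b p (j + 1) : ℤ) * v - b p j * v) := by ring
      rw [h21]
      exact h20
    · rw [← add_assoc, ← hsplit]; exact h2

/-- The set. -/
def A : Set ℕ := {x | ∃ j, x ∈ E p j}

lemma E_mono {i j : ℕ} (h : i ≤ j) : E p i ⊆ E p j := by
  induction h with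
  | refl => exact subset_rfl
  | step _ ih => exact ih.trans (by rw [E_succ]; exact subset_union_left)

theorem admissible : Admissible (A p) := by
  classical
  intro r s hr hrs
  rw [Set.eq_empty_iff_forall_notMem]
  rintro σ ⟨⟨X, hX, hXr, hXs⟩, ⟨Y, hY, hYs, hYσ⟩⟩
  obtain ⟨T, hT⟩ : ∃ T, X ∪ Y ⊆ E p T := by
    have : ∀ F : Finset ℕ, (∀ x ∈ F, x ∈ A p) → ∃ T, F ⊆ E p T := by
      intro F
      induction F using Finset.induction_on with
      | empty => intro _; exact ⟨0, empty_subset _⟩
      | insert x F hx ih =>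
        intro h
        obtain ⟨T, hT⟩ := ih (fun y hy => h y (mem_insert_of_mem hy))
        obtain ⟨j, hj⟩ := h x (mem_insert_self _ _)
        refine ⟨max T j, ?_⟩
        intro y hy
        rw [mem_insert] at hy
        rcases hy with rfl | hy
        · exact E_mono p hp hp2 (le_max_right _ _) hj
        · exact E_mono p hp hp2 (le_max_left _ _) (hT hy)
    apply this
    intro x hx
    rw [mem_union] at hx
    rcases hx with h | h
    · exact hX h
    · exact hY h
  have hX' : X ⊆ E p T := subset_union_left.trans hT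
  have hY' : Y ⊆ E p T := subset_union_right.trans hT
  set e : ℕ → ℤ := fun n => (if n ∈ X then 1 else 0) - (if n ∈ Y then 1 else 0) with he
  have he1 : ∀ n, |e n| ≤ 1 := by
    intro n
    simp only [he]
    split_ifs <;> simp
  have hsumX : ∀ f : ℕ → ℤ, ∑ n ∈ E p T, (if n ∈ X then (1 : ℤ) else 0) * f n
      = ∑ n ∈ X, f n := by
    intro f
    simp only [ite_mul, one_mul, zero_mul]
    rw [← sum_filter]
    congr 1
    ext x
    simp only [mem_filter]
    exact ⟨fun h => h.2, fun h => ⟨hX' h, h⟩⟩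
  have hsumY : ∀ f : ℕ → ℤ, ∑ n ∈ E p T, (if n ∈ Y then (1 : ℤ) else 0) * f n
      = ∑ n ∈ Y, f n := by
    intro f
    simp only [ite_mul, one_mul, zero_mul]
    rw [← sum_filter]
    congr 1
    ext x
    simp only [mem_filter]
    exact ⟨fun h => h.2, fun h => ⟨hY' h, h⟩⟩
  have hs1 : ∑ n ∈ E p T, e n * (n : ℤ) = 0 := by
    simp only [he, sub_mul, sum_sub_distrib]
    rw [hsumX, hsumY]
    have hx : ((∑ n ∈ X, n : ℕ) : ℤ) = σ := by exact_mod_cast hXs
    have hy : ((∑ n ∈ Y, n : ℕ) : ℤ) = σ := by exact_mod_cast hYσ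
    push_cast at hx hy
    rw [hx, hy, sub_self]
  have hs2 : ∑ n ∈ E p T, e n = (r : ℤ) - s := by
    have h1 := hsumX (fun _ => 1)
    have h2 := hsumY (fun _ => 1)
    simp only [mul_one, sum_const, nsmul_eq_mul] at h1 h2
    simp only [he, sum_sub_distrib]
    rw [h1, h2, hXr, hYs]
  have hdiv := key p hp hp2 e he1 T 0 0 (by simp) (by simpa using hs1)
  rw [add_zero] at hdiv
  have hbd : |∑ n ∈ E p T, e n| < 8 * p T := by
    calc |∑ n ∈ E p T, e n| ≤ ∑ n ∈ E p T, |e n| := abs_sum_le_sum_abs _ _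
      _ ≤ ∑ n ∈ E p T, (1 : ℤ) := sum_le_sum (fun n _ => he1 n)
      _ = (E p T).card := by simp
      _ < 8 * p T := by
        have h1 : ((E p T).card : ℤ) ≤ p T := by exact_mod_cast card_E p hp hp2 T
        have h2 : (0 : ℤ) < p T := by exact_mod_cast hp T
        linarith
  have hzero := Int.eq_zero_of_abs_lt_dvd hdiv hbd
  rw [hs2] at hzero
  have : (r : ℤ) < s := by exact_mod_cast hrs
  linarith

end construction

/-! ### From local gaps to the enumeration -/

lemma attainable_of {A : Set ℕ} (hadm : Admissible A) (hpos : ∀ x ∈ A, 1 ≤ x)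
    (hinf : A.Infinite) {c : ℝ} (hc : 0 ≤ c) (x₀ : ℕ)
    (h : ∀ x ∈ A, x₀ ≤ x → ∃ y ∈ A, x < y ∧ ∃ F : Finset ℕ, (∀ z ∈ F, z ∈ A ∧ z ≤ x) ∧
      (y : ℝ) - x ≤ (F.card : ℝ) ^ c) : Attainable c := by
  classical
  have hinf' : (Set.ofPred (· ∈ A)).Infinite := hinf
  have hmono : StrictMono (Nat.nth (· ∈ A)) := Nat.nth_strictMono hinf'
  have hrange : Set.range (Nat.nth (· ∈ A)) = A := Nat.range_nth_of_infinite hinf'
  have hmem : ∀ n, Nat.nth (· ∈ A) n ∈ A := fun n => Nat.nth_mem_of_infinite hinf' n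
  refine ⟨Nat.nth (· ∈ A), fun n => hpos _ (hmem n), hmono, by rw [hrange]; exact hadm, x₀, ?_⟩
  intro n hn
  obtain ⟨y, hyA, hxy, F, hF, hle⟩ := h _ (hmem n) (hn.trans (hmono.le_apply))
  obtain ⟨m, rfl⟩ : ∃ m, Nat.nth (· ∈ A) m = y := by
    have : y ∈ Set.range (Nat.nth (· ∈ A)) := by rw [hrange]; exact hyA
    exact this
  have hnm : n + 1 ≤ m := hmono.lt_iff_lt.mp hxy
  have h1 : Nat.nth (· ∈ A) (n + 1) ≤ Nat.nth (· ∈ A) m := hmono.monotone hnm
  have h2 : F ⊆ (range (n + 1)).image (Nat.nth (· ∈ A)) := by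
    intro z hz
    obtain ⟨hzA, hzx⟩ := hF z hz
    obtain ⟨l, rfl⟩ : ∃ l, Nat.nth (· ∈ A) l = z := by
      have : z ∈ Set.range (Nat.nth (· ∈ A)) := by rw [hrange]; exact hzA
      exact this
    have : l ≤ n := hmono.le_iff_le.mp hzx
    exact mem_image.mpr ⟨l, mem_range.mpr (by omega), rfl⟩
  have h3 : F.card ≤ n + 1 := by
    calc F.card ≤ _ := card_le_card h2
      _ ≤ (range (n + 1)).card := card_image_le
      _ = n + 1 := card_range _
  calc ((Nat.nth (· ∈ A) (n + 1) : ℕ) : ℝ) - (Nat.nth (· ∈ A) n : ℕ)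
      ≤ ((Nat.nth (· ∈ A) m : ℕ) : ℝ) - (Nat.nth (· ∈ A) n : ℕ) := by
        have : ((Nat.nth (· ∈ A) (n + 1) : ℕ) : ℝ) ≤ (Nat.nth (· ∈ A) m : ℕ) := by
          exact_mod_cast h1
        linarith
    _ ≤ (F.card : ℝ) ^ c := hle
    _ ≤ ((n : ℝ) + 1) ^ c := by
        apply Real.rpow_le_rpow (by positivity) _ hc
        exact_mod_cast h3

section gaps

variable (p : ℕ → ℕ) (hp : ∀ j, 0 < p j) (hp2 : ∀ j, 4 * p j ^ 2 ≤ p (j + 1))

include hp hp2

lemma light_sub_A {j x : ℕ} (hx : x ∈ light p j) : x ∈ A p :=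
  ⟨j + 1, by rw [E_succ]; exact mem_union_right _ (mem_union_left _ hx)⟩

lemma heavy_sub_A {j x : ℕ} (hx : x ∈ heavy p j) : x ∈ A p :=
  ⟨j + 1, by rw [E_succ]; exact mem_union_right _ (mem_union_right _ hx)⟩

lemma mem_A {x : ℕ} (hx : x ∈ A p) : ∃ j, x ∈ light p j ∨ x ∈ heavy p j := by
  obtain ⟨j, hj⟩ := hx
  induction j with
  | zero => simp [E] at hj
  | succ j ih =>
    rw [E_succ, mem_union, mem_union] at hj
    rcases hj with h | h
    · exact ih h
    · exact ⟨j, h⟩

lemma b_lt_succ (j : ℕ) : b p j < b p (j + 1) := by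
  have := b_mono_aux p hp hp2 j
  have := M_pos p hp j
  omega

lemma b_strictMono : StrictMono (b p) := strictMono_nat_of_lt_succ (b_lt_succ p hp hp2)

lemma b_mem_heavy (j : ℕ) : b p (j + 1) ∈ heavy p j := by
  rw [mem_heavy p hp]
  exact ⟨0, by have := hp j; positivity, by simp⟩

lemma A_infinite : (A p).Infinite := by
  have h1 : Set.range (fun j => b p (j + 1)) ⊆ A p := by
    rintro _ ⟨j, rfl⟩
    exact heavy_sub_A p hp hp2 (b_mem_heavy p hp hp2 j)
  apply Set.Infinite.mono h1
  apply Set.infinite_range_of_injective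
  intro i j hij
  have := (b_strictMono p hp hp2).injective hij
  omega

lemma A_pos : ∀ x ∈ A p, 1 ≤ x := by
  intro x hx
  obtain ⟨j, h | h⟩ := mem_A p hp hp2 hx
  · have h1 := (light_bounds p hp h).1
    have h2 := b_pos p j
    omega
  · have h1 := (heavy_bounds p hp h).1
    have h2 := b_pos p (j + 1)
    omega

lemma card_dense (j : ℕ) : (dense p j).card = p j := by
  unfold dense
  rw [card_image_of_injective]
  · simp
  intro x y hxy
  have := M_pos p hp j
  simp only [add_right_inj] at hxy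
  exact Nat.eq_of_mul_eq_mul_left this hxy

lemma dense_le {j z : ℕ} (hz : z ∈ dense p j) : z ∈ A p ∧ z ≤ b p j + M p j * p j := by
  refine ⟨light_sub_A p hp hp2 (mem_union_left _ hz), ?_⟩
  rw [mem_dense p hp] at hz
  obtain ⟨i, ⟨-, h2⟩, rfl⟩ := hz
  have := Nat.mul_le_mul_left (M p j) h2
  omega

theorem attainable_of_growth {c : ℝ} (hc : 0 ≤ c) (j₀ : ℕ)
    (hG : ∀ j, j₀ ≤ j → ((M p j * (2 * p j ^ 2) : ℕ) : ℝ) ≤ (p j : ℝ) ^ c)
    (hM : ∀ j, j₀ ≤ j → ((M p (j + 1) : ℕ) : ℝ) ≤ ((p j ^ 2 : ℕ) : ℝ) ^ c) : Attainable c := by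
  apply attainable_of (admissible p hp hp2) (A_pos p hp hp2) (A_infinite p hp hp2) hc
    (b p (j₀ + 2))
  intro x hxA hx
  obtain ⟨j, hj⟩ := mem_A p hp hp2 hxA
  have hMj := M_pos p hp j
  have hpj := hp j
  have hj₀ : j₀ + 1 ≤ j := by
    by_contra hcon
    push Not at hcon
    have h1 : x ∈ E p (j + 1) := by
      rw [E_succ]; apply mem_union_right; rw [mem_union]; exact hj
    have h2 := E_lt p hp hp2 (j + 1) x h1
    have h3 := b_mono_aux p hp hp2 (j + 1)
    have h4 : b p (j + 1 + 1) ≤ b p (j₀ + 2) := (b_strictMono p hp hp2).monotone (by omega)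
    omega
  have hj1 : 1 ≤ j := by omega
  -- the gap bound inside stage j
  have hGj := hG j (by omega)
  have hsmall : ((M p j : ℕ) : ℝ) ≤ (p j : ℝ) ^ c := by
    refine le_trans ?_ hGj
    have : M p j ≤ M p j * (2 * p j ^ 2) := Nat.le_mul_of_pos_right _ (by positivity)
    exact_mod_cast this
  have hcast : ∀ y B : ℕ, x < y → y ≤ x + B → (y : ℝ) - x ≤ (B : ℝ) := by
    intro y B h1 h2
    have : (y : ℝ) ≤ x + B := by exact_mod_cast h2
    linarith
  have hbM : M p j * (2 * p j ^ 3) + b p j = b p (j + 1) := by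
    rw [b_succ_cong p hp j]; ring
  rcases hj with hj | hj
  · unfold light at hj
    rw [mem_union] at hj
    rcases hj with hj | hj
    · -- dense element
      obtain ⟨i, ⟨h1, h2⟩, rfl⟩ := (mem_dense p hp).mp hj
      rcases Nat.lt_or_ge i (p j) with h3 | h3
      · refine ⟨b p j + M p j * (i + 1), ?_, ?_, heavy p (j - 1), ?_, ?_⟩
        · exact light_sub_A p hp hp2 (mem_union_left _
            ((mem_dense p hp).mpr ⟨i + 1, ⟨by omega, by omega⟩, rfl⟩))
        · have : M p j * (i + 1) = M p j * i + M p j := by ring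
          omega
        · intro z hz
          refine ⟨heavy_sub_A p hp hp2 hz, ?_⟩
          have h4 := heavy_lt p hp hp2 hz
          have h5 : j - 1 + 1 = j := by omega
          rw [h5] at h4
          have h6 : M p j ≤ M p j * i := Nat.le_mul_of_pos_right _ (by omega)
          omega
        · rw [card_heavy p hp hp2]
          have h7 := hM (j - 1) (by omega)
          have h5 : j - 1 + 1 = j := by omega
          rw [h5] at h7
          refine le_trans ?_ h7
          have : M p j * (i + 1) = M p j * i + M p j := by ring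
          exact hcast _ _ (by omega) (by omega)
      · have h4 : i = p j := by omega
        subst h4
        have hp1 : 1 < p j := by
          have h5 := hp2 (j - 1)
          have h6 : j - 1 + 1 = j := by omega
          rw [h6] at h5
          have h7 := hp (j - 1)
          have : 1 ≤ p (j - 1) ^ 2 := Nat.one_le_pow _ _ h7
          omega
        have h8 : M p j * p j < M p j * (2 * p j ^ 2 * 1) := by
          apply Nat.mul_lt_mul_of_pos_left _ hMj
          nlinarith
        refine ⟨b p j + M p j * (2 * p j ^ 2 * 1), ?_, ?_, dense p j, ?_, ?_⟩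
        · exact light_sub_A p hp hp2 (mem_union_right _
            ((mem_filler p hp).mpr ⟨1, ⟨le_refl _, hp1⟩, rfl⟩))
        · omega
        · intro z hz
          exact dense_le p hp hp2 hz
        · rw [card_dense p hp hp2]
          refine le_trans ?_ hGj
          apply hcast _ _ (by omega)
          rw [mul_one]; omega
    · -- filler
      obtain ⟨i, ⟨h1, h2⟩, rfl⟩ := (mem_filler p hp).mp hj
      have hF : ∀ z ∈ dense p j, z ∈ A p ∧ z ≤ b p j + M p j * (2 * p j ^ 2 * i) := by
        intro z hz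
        obtain ⟨h3, h4⟩ := dense_le p hp hp2 hz
        refine ⟨h3, h4.trans ?_⟩
        have : M p j * p j ≤ M p j * (2 * p j ^ 2 * i) := by
          apply Nat.mul_le_mul_left
          calc p j ≤ p j ^ 2 := Nat.le_self_pow (by norm_num) _
            _ ≤ p j ^ 2 * (2 * i) := Nat.le_mul_of_pos_right _ (by omega)
            _ = 2 * p j ^ 2 * i := by ring
        omega
      have h5 : M p j * (2 * p j ^ 2 * (i + 1))
          = M p j * (2 * p j ^ 2 * i) + M p j * (2 * p j ^ 2) := by ring
      have h6 : 0 < M p j * (2 * p j ^ 2) := by positivity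
      refine ⟨b p j + M p j * (2 * p j ^ 2 * (i + 1)), ?_, by omega, dense p j, hF, ?_⟩
      · rcases Nat.lt_or_ge (i + 1) (p j) with h3 | h3
        · exact light_sub_A p hp hp2 (mem_union_right _
            ((mem_filler p hp).mpr ⟨i + 1, ⟨by omega, h3⟩, rfl⟩))
        · have h4 : i + 1 = p j := by omega
          rw [h4]
          have : b p j + M p j * (2 * p j ^ 2 * p j) = b p (j + 1) := by
            rw [← hbM]; ring
          rw [this]
          exact heavy_sub_A p hp hp2 (b_mem_heavy p hp hp2 j)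
      · rw [card_dense p hp hp2]
        refine le_trans ?_ hGj
        exact hcast _ _ (by omega) (by omega)
  · -- heavy
    obtain ⟨i, h1, rfl⟩ := (mem_heavy p hp).mp hj
    rcases Nat.lt_or_ge (i + 1) (p j ^ 2) with h3 | h3
    · have h5 : M p j * (i + 1) = M p j * i + M p j := by ring
      refine ⟨b p (j + 1) + M p j * (i + 1), ?_, by omega, dense p j, ?_, ?_⟩
      · exact heavy_sub_A p hp hp2 ((mem_heavy p hp).mpr ⟨i + 1, h3, rfl⟩)
      · intro z hz
        obtain ⟨h6, -⟩ := dense_le p hp hp2 hz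
        have h7 := (light_bounds p hp (mem_union_left _ hz : z ∈ light p j)).2
        exact ⟨h6, by omega⟩
      · rw [card_dense p hp hp2]
        refine le_trans ?_ hsmall
        exact hcast _ _ (by omega) (by omega)
    · have h4 : i + 1 = p j ^ 2 := by omega
      have h5 := heavy_lt p hp hp2 hj
      refine ⟨b p (j + 1) + M p (j + 1) * 1, ?_, by omega, heavy p j, ?_, ?_⟩
      · exact light_sub_A p hp hp2 (mem_union_left _
          ((mem_dense p hp).mpr ⟨1, ⟨le_refl _, hp (j + 1)⟩, rfl⟩))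
      · intro z hz
        refine ⟨heavy_sub_A p hp hp2 hz, ?_⟩
        obtain ⟨i', h6, rfl⟩ := (mem_heavy p hp).mp hz
        have := Nat.mul_le_mul_left (M p j) (show i' ≤ i by omega)
        omega
      · rw [card_heavy p hp hp2]
        refine le_trans ?_ (hM j (by omega))
        exact hcast _ _ (by omega) (by omega)

end gaps

/-! ### The choice of the sizes -/

/-- 1, 2, 8, 28, ... -/
def xs : ℕ → ℕ
  | 0 => 1
  | 1 => 2
  | n + 2 => 3 * xs (n + 1) + 2 * xs n

lemma xs_succ_succ (n : ℕ) : xs (n + 2) = 3 * xs (n + 1) + 2 * xs n := rfl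

lemma xs_double (n : ℕ) : 2 * xs n ≤ xs (n + 1) ∧ 0 < xs n := by
  induction n with
  | zero => decide
  | succ n ih => rw [xs_succ_succ]; omega

lemma xs_sum (j : ℕ) : 4 * ∑ i ∈ range (j + 1), xs i = xs (j + 1) + 2 * xs j := by
  induction j with
  | zero => decide
  | succ j ih =>
    rw [sum_range_succ, mul_add, ih, xs_succ_succ]
    ring

/-- exponents -/
def ex (j : ℕ) : ℕ := 8 * xs j - 2

/-- sizes -/
def pp (j : ℕ) : ℕ := 2 ^ ex j

lemma pp_pos (j : ℕ) : 0 < pp j := by unfold pp; positivity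

lemma pp_growth (j : ℕ) : 4 * pp j ^ 2 ≤ pp (j + 1) := by
  unfold pp
  calc 4 * (2 ^ ex j) ^ 2 = 2 ^ (2 + 2 * ex j) := by rw [pow_add, ← pow_mul]; ring
    _ ≤ 2 ^ ex (j + 1) := by
      apply Nat.pow_le_pow_right (by norm_num)
      unfold ex
      have := xs_double j
      omega

lemma b_pp (j : ℕ) : b pp j ≤ 2 ^ (∑ i ∈ range j, (4 * ex i + 5)) := by
  induction j with
  | zero => simp [b]
  | succ j ih =>
    rw [b_succ, sum_range_succ, pow_add]
    apply Nat.mul_le_mul ih
    unfold pp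
    have h1 : 1 ≤ (2 ^ ex j) ^ 4 := Nat.one_le_pow _ _ (by positivity)
    calc 1 + 16 * (2 ^ ex j) ^ 4 ≤ 32 * (2 ^ ex j) ^ 4 := by omega
      _ = 2 ^ (4 * ex j + 5) := by rw [pow_add, ← pow_mul]; ring

lemma sum_ex (j : ℕ) : ∑ i ∈ range (j + 1), (4 * ex i + 5) + 3 * (j + 1)
    = 8 * (xs (j + 1) + 2 * xs j) := by
  have h1 : ∀ i ∈ range (j + 1), (4 * ex i + 5) + 3 = 32 * xs i := by
    intro i _
    unfold ex
    have := (xs_double i).2
    omega
  have h2 : ∑ i ∈ range (j + 1), ((4 * ex i + 5) + 3) = 32 * ∑ i ∈ range (j + 1), xs i := by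
    rw [sum_congr rfl h1, mul_sum]
  rw [sum_add_distrib, sum_const, card_range, smul_eq_mul] at h2
  have h3 := xs_sum j
  omega

/-- exponent of the first gap of stage `j + 1` -/
lemma exp1 (j : ℕ) : (∑ i ∈ range (j + 1), (4 * ex i + 5) + (3 + ex (j + 1))) + 3 * (j + 1)
    = 16 * xs (j + 1) + 16 * xs j + 1 := by
  have h := sum_ex j
  unfold ex at h ⊢
  have := (xs_double (j + 1)).2
  omega

/-- exponent of the filler gap of stage `j + 1` -/
lemma exp2 (j : ℕ) : (∑ i ∈ range (j + 1), (4 * ex i + 5) + (4 + 3 * ex (j + 1))) + 3 * (j + 1) + 2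
    = 8 * xs (j + 2) + 8 * xs (j + 1) := by
  have h := sum_ex j
  unfold ex at h ⊢
  have := (xs_double (j + 1)).2
  rw [xs_succ_succ]
  omega

lemma sqrt17_lt : √17 < 4.124 := by
  rw [Real.sqrt_lt' (by norm_num)]
  norm_num

lemma sqrt17_gt : 4.123 < √17 := by
  apply Real.lt_sqrt_of_sq_lt
  norm_num

lemma xs_ratio (j : ℕ) : |(xs (j + 1) : ℝ) - (3 + √17) / 2 * xs j| ≤ 2 := by
  have hs : √17 * √17 = 17 := Real.mul_self_sqrt (by norm_num)
  have h1 := sqrt17_lt
  have h2 := sqrt17_gt
  induction j with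
  | zero =>
    simp only [xs]
    rw [abs_le]; constructor <;> push_cast <;> linarith
  | succ j ih =>
    have h3 : (xs (j + 1 + 1) : ℝ) - (3 + √17) / 2 * xs (j + 1)
        = (3 - √17) / 2 * ((xs (j + 1) : ℝ) - (3 + √17) / 2 * xs j) := by
      rw [xs_succ_succ]
      push_cast
      nlinarith
    rw [h3, abs_mul]
    have h4 : |(3 - √17) / 2| ≤ 1 := by
      rw [abs_le]; constructor <;> linarith
    calc |(3 - √17) / 2| * |(xs (j + 1) : ℝ) - (3 + √17) / 2 * xs j|
        ≤ 1 * 2 := mul_le_mul h4 ih (abs_nonneg _) (by norm_num)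
      _ = 2 := by norm_num

lemma attainable_crit : Attainable ((5 + √17) / 2) := by
  have hs1 := sqrt17_lt
  have hs2 := sqrt17_gt
  have hexr : ∀ j, (ex j : ℝ) = 8 * xs j - 2 := by
    intro j
    have : ex j + 2 = 8 * xs j := by
      unfold ex
      have := (xs_double j).2
      omega
    have h : (ex j : ℝ) + 2 = 8 * xs j := by exact_mod_cast this
    linarith
  apply attainable_of_growth pp pp_pos pp_growth (by linarith) 20
  · intro j hj
    obtain ⟨i, rfl⟩ : ∃ i, j = i + 1 := ⟨j - 1, by omega⟩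
    have h1 : M pp (i + 1) * (2 * pp (i + 1) ^ 2)
        ≤ 2 ^ (∑ l ∈ range (i + 1), (4 * ex l + 5) + (4 + 3 * ex (i + 1))) := by
      rw [pow_add]
      calc M pp (i + 1) * (2 * pp (i + 1) ^ 2)
          = b pp (i + 1) * (16 * pp (i + 1) ^ 3) := by unfold M; ring
        _ ≤ _ := by
          apply Nat.mul_le_mul (b_pp _)
          unfold pp
          rw [pow_add, ← pow_mul, mul_comm (ex (i + 1)) 3]
          norm_num
    have h2 := exp2 i
    have h3 : ((∑ l ∈ range (i + 1), (4 * ex l + 5) + (4 + 3 * ex (i + 1)) : ℕ) : ℝ)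
        + 3 * (i + 1) + 2 = 8 * xs (i + 2) + 8 * xs (i + 1) := by exact_mod_cast h2
    have h4 := (abs_le.mp (xs_ratio (i + 1))).2
    have h5 : (20 : ℝ) ≤ (i : ℝ) + 1 := by exact_mod_cast hj
    calc ((M pp (i + 1) * (2 * pp (i + 1) ^ 2) : ℕ) : ℝ)
        ≤ ((2 ^ (∑ l ∈ range (i + 1), (4 * ex l + 5) + (4 + 3 * ex (i + 1))) : ℕ) : ℝ) := by
          exact_mod_cast h1
      _ = (2 : ℝ) ^ ((∑ l ∈ range (i + 1), (4 * ex l + 5) + (4 + 3 * ex (i + 1)) : ℕ) : ℝ) := by
          rw [Real.rpow_natCast]; push_cast; rfl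
      _ ≤ (2 : ℝ) ^ ((ex (i + 1) : ℝ) * ((5 + √17) / 2)) := by
          apply Real.rpow_le_rpow_of_exponent_le (by norm_num)
          rw [hexr]
          have h6 : i + 1 + 1 = i + 2 := rfl
          rw [h6] at h4
          nlinarith
      _ = ((pp (i + 1) : ℕ) : ℝ) ^ ((5 + √17) / 2) := by
          rw [Real.rpow_mul (by norm_num), Real.rpow_natCast]
          unfold pp
          push_cast
          rfl
  · intro j hj
    have h1 : M pp (j + 1)
        ≤ 2 ^ (∑ l ∈ range (j + 1), (4 * ex l + 5) + (3 + ex (j + 1))) := by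
      rw [pow_add]
      calc M pp (j + 1) = b pp (j + 1) * (8 * pp (j + 1)) := by unfold M; ring
        _ ≤ _ := by
          apply Nat.mul_le_mul (b_pp _)
          unfold pp
          rw [pow_add]
          norm_num
    have h2 := exp1 j
    have h3 : ((∑ l ∈ range (j + 1), (4 * ex l + 5) + (3 + ex (j + 1)) : ℕ) : ℝ)
        + 3 * (j + 1) = 16 * xs (j + 1) + 16 * xs j + 1 := by exact_mod_cast h2
    have h4 := (abs_le.mp (xs_ratio j)).2
    have h5 : (20 : ℝ) ≤ (j : ℝ) := by exact_mod_cast hj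
    calc ((M pp (j + 1) : ℕ) : ℝ)
        ≤ ((2 ^ (∑ l ∈ range (j + 1), (4 * ex l + 5) + (3 + ex (j + 1))) : ℕ) : ℝ) := by
          exact_mod_cast h1
      _ = (2 : ℝ) ^ ((∑ l ∈ range (j + 1), (4 * ex l + 5) + (3 + ex (j + 1)) : ℕ) : ℝ) := by
          rw [Real.rpow_natCast]; push_cast; rfl
      _ ≤ (2 : ℝ) ^ (((2 * ex j : ℕ) : ℝ) * ((5 + √17) / 2)) := by
          apply Real.rpow_le_rpow_of_exponent_le (by norm_num)
          have h7 : ((2 * ex j : ℕ) : ℝ) = 2 * ex j := by push_cast; rfl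
          rw [h7, hexr]
          nlinarith
      _ = ((pp j ^ 2 : ℕ) : ℝ) ^ ((5 + √17) / 2) := by
          rw [Real.rpow_mul (by norm_num), Real.rpow_natCast]
          unfold pp
          push_cast
          rw [← pow_mul, mul_comm 2 (ex j)]

/-- Every `c ≥ (5 + √17) / 2` is attainable. -/
theorem attainable_upper {c : ℝ} (hc : (5 + √17) / 2 ≤ c) : Attainable c := by
  obtain ⟨a, h1, h2, h3, n₀, h4⟩ := attainable_crit
  refine ⟨a, h1, h2, h3, n₀, fun n hn => (h4 n hn).trans ?_⟩
  apply Real.rpow_le_rpow_of_exponent_le _ hc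
  have : (0 : ℝ) ≤ n := by positivity
  linarith

end Pool.Agent.H457Adm.Upper
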